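import Pool.Agent.QSB.Stmts
import Pool.Agent.SUBB.BKU

/-!
# QSB, module BKU: exponential moments of the displacement of the blocks
-/

set_option autoImplicit false

namespace Pool.Agent.QSB

open Finset Filter Topology
open Pool.Agent.Lib27 Pool.Agent.SUBB

theorem t_BKU (hT : TS1_Stmt) (hR : REN1_Stmt) : BKU_Stmt := by
  classical
  intro F v₁ d l lam hv0 hv3 hd hd1 hl hl1 hQ hlam hlam1 N
  have hψ : ∀ w : Wo, |((su F w : ℤ) : ℝ)| ≤ 2 * (w.length : ℝ) := by
    intro w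
    have h1 := abs_su_le F w
    have h2 : |((su F w : ℤ) : ℝ)| ≤ (w.length : ℝ) := by exact_mod_cast h1
    have h3 : (0 : ℝ) ≤ (w.length : ℝ) := Nat.cast_nonneg _
    linarith
  obtain ⟨B, hB⟩ := hT (fun w => ((su F w : ℤ) : ℝ)) hψ v₁ d l lam hv0 hv3 hd (by linarith) hl
    hl1 hQ hlam hlam1
  have h1 : ∀ N : ℕ, Gs (Blk F) (om F (Lm + lam * (v₁ + d)) lam 0) N ≤ 1 := by
    apply hR
    refine ⟨B, fun N => ?_⟩
    have h2 : om F (Lm + lam * (v₁ + d)) lam 0 = fun w =>
        Real.exp (-((Lm + lam * (v₁ + d)) * (w.length : ℝ)) + lam * ((su F w : ℤ) : ℝ)) := by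
      funext w
      unfold om
      rw [zero_mul, add_zero]
    rw [h2]
    exact hB N
  have h3 : Gs (Blk F) (om F (Lm + lam * (v₁ + 2 * d)) lam 0) N ≤
      Real.exp (-(lam * d)) * Gs (Blk F) (om F (Lm + lam * (v₁ + d)) lam 0) N := by
    unfold Gs
    rw [Finset.mul_sum]
    refine Finset.sum_le_sum fun n _ => ?_
    rw [Finset.mul_sum]
    refine Finset.sum_le_sum fun w hw => ?_
    have hw1 : Blk F w := (Finset.mem_filter.mp hw).2
    have hlen : (1 : ℝ) ≤ (w.length : ℝ) := by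
      exact_mod_cast bku_length_pos F w hw1
    unfold om
    rw [← Real.exp_add]
    apply Real.exp_le_exp.mpr
    have h4 : 0 ≤ lam * d * ((w.length : ℝ) - 1) :=
      mul_nonneg (mul_nonneg hlam.le hd.le) (by linarith)
    nlinarith [h4]
  calc Gs (Blk F) (om F (Lm + lam * (v₁ + 2 * d)) lam 0) N
      ≤ Real.exp (-(lam * d)) * Gs (Blk F) (om F (Lm + lam * (v₁ + d)) lam 0) N := h3
    _ ≤ Real.exp (-(lam * d)) * 1 := mul_le_mul_of_nonneg_left (h1 N) (Real.exp_pos _).le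
    _ = Real.exp (-(lam * d)) := mul_one _

end Pool.Agent.QSB
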