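import Pool.Agent.QSB.Stmts
import Pool.Agent.SUBB.BLT

/-!
# Project QSB: the total weight of the blocks is smaller than one, quantitative form
-/

set_option autoImplicit false

namespace Pool.Agent.QSB

open Finset Filter Topology
open Pool.Agent.Lib27 Pool.Agent.SUBB

namespace BLTx

/-- the numerical conditions -/
lemma conds {x y d l lam τ θ : ℝ} (hx : x = l * d) (hl : 0 < l) (hl1 : l ≤ 1 / 2) (hd : 0 < d)
    (hd1 : d ≤ 1 / 2) (hy : 0 < y) (hy1 : y ≤ 1 / 2) (hτ : d / 5 ≤ τ) (hθ : d ^ 2 / 20 ≤ θ)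
    (hlam : 0 < lam) (h : 12800 * lam ≤ x ^ 3 * y ^ 2) :
    lam / θ ≤ l / 12 ∧ lam ≤ y / 4 ∧ lam * d ≤ θ ∧ 2 * (lam * (9 / y)) ≤ y * τ / 4 ∧
      32 * lam ≤ d * (y * τ / 4) ^ 2 := by
  have hx0 : 0 < x := by rw [hx]; positivity
  have hxd : x ≤ d := by rw [hx]; nlinarith
  have hxl : x ^ 2 ≤ l * d ^ 2 := by
    rw [hx]
    have : (l * d) ^ 2 = l * (l * d ^ 2) := by ring
    rw [this]
    have h1 : 0 < l * d ^ 2 := by positivity
    nlinarith
  have hx1 : x ≤ 1 := by linarith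
  have hy2 : y ^ 2 ≤ y := by nlinarith
  have hy2' : y ^ 2 ≤ 1 := by nlinarith
  have hx3 : x ^ 3 ≤ x ^ 2 := by
    have : x ^ 3 = x ^ 2 * x := by ring
    rw [this]
    exact mul_le_of_le_one_right (by positivity) hx1
  have hx3' : x ^ 3 ≤ 1 := hx3.trans (by nlinarith)
  have hθ0 : 0 < θ := lt_of_lt_of_le (by positivity) hθ
  have a1 : 12800 * lam ≤ x ^ 2 := by
    calc 12800 * lam ≤ x ^ 3 * y ^ 2 := h
      _ ≤ x ^ 3 * 1 := mul_le_mul_of_nonneg_left hy2' (by positivity)
      _ ≤ x ^ 2 := by rw [mul_one]; exact hx3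
  have a2 : 12800 * lam ≤ y := by
    calc 12800 * lam ≤ x ^ 3 * y ^ 2 := h
      _ ≤ 1 * y ^ 2 := mul_le_mul_of_nonneg_right hx3' (by positivity)
      _ ≤ y := by rw [one_mul]; exact hy2
  have a3 : lam ≤ l / 12 * θ := by
    have h2 : l / 12 * (d ^ 2 / 20) ≤ l / 12 * θ := mul_le_mul_of_nonneg_left hθ (by positivity)
    have h3 : l / 12 * (d ^ 2 / 20) = l * d ^ 2 / 240 := by ring
    have h4 : 0 < l * d ^ 2 := by positivity
    linarith
  refine ⟨(div_le_iff₀ hθ0).2 a3, by linarith, ?_, ?_, ?_⟩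
  · have h2 : l / 12 * θ ≤ θ := by nlinarith
    have h3 : lam * d ≤ lam := by nlinarith
    linarith
  · have h2 : 72 * lam ≤ y ^ 2 * τ := by
      have h3 : x ^ 3 * y ^ 2 ≤ d * y ^ 2 := by
        apply mul_le_mul_of_nonneg_right _ (by positivity)
        calc x ^ 3 ≤ x ^ 2 := hx3
          _ = x * x := by ring
          _ ≤ x * 1 := mul_le_mul_of_nonneg_left hx1 hx0.le
          _ ≤ d := by rw [mul_one]; exact hxd
      have h4 : y ^ 2 * (d / 5) ≤ y ^ 2 * τ := mul_le_mul_of_nonneg_left hτ (by positivity)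
      have h5 : 0 < d * y ^ 2 := by positivity
      nlinarith
    have h3 : 2 * (lam * (9 / y)) = 72 * lam / (4 * y) := by field_simp; ring
    have h4 : y * τ / 4 = y ^ 2 * τ / (4 * y) := by field_simp
    rw [h3, h4]
    exact div_le_div_of_nonneg_right h2 (by positivity)
  · have h2 : (d / 5) ^ 2 ≤ τ ^ 2 := pow_le_pow_left₀ (by positivity) hτ 2
    have h3 : x ^ 3 ≤ d ^ 3 := pow_le_pow_left₀ hx0.le hxd 3
    have h4 : x ^ 3 * y ^ 2 ≤ d ^ 3 * y ^ 2 := mul_le_mul_of_nonneg_right h3 (by positivity)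
    have h5 : d * y ^ 2 / 16 * (d / 5) ^ 2 ≤ d * y ^ 2 / 16 * τ ^ 2 :=
      mul_le_mul_of_nonneg_left h2 (by positivity)
    have h6 : d * (y * τ / 4) ^ 2 = d * y ^ 2 / 16 * τ ^ 2 := by ring
    have h7 : d * y ^ 2 / 16 * (d / 5) ^ 2 = d ^ 3 * y ^ 2 / 400 := by ring
    rw [h6]
    linarith

end BLTx

theorem t_BLT (hP : PSB_Stmt) (hR : RBK_Stmt) (hK : BKU_Stmt) (hL : LRB_Stmt) (hI : LIM_Stmt)
    (hT : TRM_Stmt) (hS : BSY_Stmt) : BLT_Stmt := by
  classical
  obtain ⟨K₁, hR⟩ := hR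
  obtain ⟨K, -, -, hKK⟩ := pow_absorb (12800 * 4 ^ (K₁ + 1)) (2 * (K₁ + 1) + 3)
  refine ⟨K, ?_⟩
  intro F v₁ v₀ d l hv1 hv10 hv03 hd0 hd1 hl0 hl1 hq1 hq2 lam lam0 hlam N
  set v₂ : ℝ := v₁ + 2 * d with hv2
  set v₃ : ℝ := v₀ - d with hv3
  have h23 : v₂ + 5 * d ≤ v₃ := by rw [hv2, hv3]; linarith
  have hv30 : 0 ≤ v₃ := by rw [hv3]; linarith
  set τ : ℝ := (v₃ - v₂) / 24 with hτ
  have hτd : d / 5 ≤ τ := by rw [hτ]; linarith
  have τ0 : 0 < τ := by linarith
  have hτ1 : τ ≤ 1 / 8 := by rw [hτ, hv3, hv2]; linarith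
  set θ : ℝ := 1 - Real.exp (-(τ * (d / 2))) with hθ
  have hθd : d ^ 2 / 20 ≤ θ := by
    have h1 := one_sub_exp_ge (x := τ * (d / 2)) (by positivity) (by nlinarith)
    have h2 : d / 5 * (d / 2) ≤ τ * (d / 2) := mul_le_mul_of_nonneg_right hτd (by positivity)
    have h3 : d ^ 2 / 20 = d / 5 * (d / 2) / 2 := by ring
    rw [h3]
    linarith
  have θ0 : 0 < θ := lt_of_lt_of_le (by positivity) hθd
  have θ1 : θ ≤ 1 := by rw [hθ]; linarith [Real.exp_pos (-(τ * (d / 2)))]
  -- the level for the blocks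
  set y : ℝ := (l * (d / 2)) ^ (K₁ + 1) with hy
  have hb0 : 0 < l * (d / 2) := by positivity
  have hb1 : l * (d / 2) ≤ 1 / 8 := by nlinarith
  have y0 : 0 < y := pow_pos hb0 _
  have y1 : y ≤ 1 / 2 := by
    calc y = (l * (d / 2)) ^ K₁ * (l * (d / 2)) := pow_succ _ _
      _ ≤ 1 * (l * (d / 2)) :=
        mul_le_mul_of_nonneg_right (pow_le_one₀ hb0.le (by linarith)) hb0.le
      _ ≤ 1 / 2 := by linarith
  have hQT : QT y (fun w => Blk F w ∧
      (v₀ - 2 * d + d / 2) * (w.length : ℝ) ≤ (su F w : ℝ) + |(st F w : ℝ)|) :=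
    QT_pow hl0 (by linarith) (by positivity) (by linarith) (Nat.le_succ K₁)
      (hR F (v₀ - 2 * d) (d / 2) l (by linarith) (by linarith) (by positivity) (by linarith)
        hl0 hl1 hq2)
  have hx : 12800 * lam ≤ (l * d) ^ 3 * y ^ 2 := by
    have hld : 0 < l * d := by positivity
    have h1 := hKK (l * d) hld (by nlinarith)
    have h2 : y ^ 2 * 4 ^ (K₁ + 1) = (l * d) ^ (2 * (K₁ + 1)) := by
      rw [hy, ← pow_mul, mul_comm (K₁ + 1) 2, pow_mul, ← mul_pow, pow_mul]
      congr 1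
      ring
    have h3 : (l * d) ^ (2 * (K₁ + 1) + 3) = (l * d) ^ 3 * y ^ 2 * 4 ^ (K₁ + 1) := by
      rw [pow_add, ← h2]
      ring
    rw [h3] at h1
    have h4 : 12800 * 4 ^ (K₁ + 1) * (l * d) ^ K = 12800 * (l * d) ^ K * 4 ^ (K₁ + 1) := by ring
    rw [h4] at h1
    have h5 : 12800 * (l * d) ^ K ≤ (l * d) ^ 3 * y ^ 2 :=
      le_of_mul_le_mul_right h1 (by positivity)
    linarith
  obtain ⟨c1, c2, c3, c4, c5⟩ := BLTx.conds rfl hl0 hl1 hd0 hd1 y0 y1 hτd hθd lam0 hx
  have hlt := hI θ d (y * τ / 4) (9 / y) lam θ0 hd0 (by positivity) (by positivity) lam0 c3 c4 c5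
  have hsymm := (hS F).2 (om F (Lm + lam * v₃) lam lam) N
  set C : Finset Wo := ren2C N with hC
  set Q : Wo → Prop := fun w => (Blk F w ∧
      (v₀ - 2 * d + d / 2) * (w.length : ℝ) ≤ (su F w : ℝ) + |(st F w : ℝ)|) ∧
      τ < lam * (w.length : ℝ) with hQ
  set g : Wo → ℝ := fun w => Real.exp (-(Lm * (w.length : ℝ)) + 2 * lam * (w.length : ℝ)) with hg
  have b1 := hP F N
  have b2 := hK F v₁ d l (lam / θ) hv1 (by linarith) hd0 hd1 hl0 hl1 hq1 (div_pos lam0 θ0) c1 N
  have b3 : Gs Q g N ≤ Real.exp (9 / y) * Real.exp (-(y * τ / 4 / lam)) := by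
    have h1 := hL _ τ y lam τ0 y0 y1 hQT lam0 c2 N
    refine h1.trans (mul_le_mul_of_nonneg_right ?_ (Real.exp_pos _).le)
    have h2 : 8 / y ≤ Real.exp (8 / y) := by
      have := Real.add_one_le_exp (8 / y)
      linarith
    have h3 : Real.exp (9 / y) = Real.exp (1 / y) * Real.exp (8 / y) := by
      rw [← Real.exp_add]
      congr 1
      ring
    rw [h3]
    exact mul_le_mul_of_nonneg_left h2 (Real.exp_pos _).le
  rw [ren2_Gs] at hsymm b1 b2 b3 ⊢
  rw [ren2_Gs] at hsymm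
  have hterm : ∀ w ∈ C.filter (Blk F),
      (om F (Lm + lam * v₃) lam lam w + om F (Lm + lam * v₃) lam lam (w.map F.fT)) / 2 ≤
      (1 - θ) * om F Lm 0 0 w + θ * om F (Lm + lam / θ * v₂) (lam / θ) 0 w +
        (if Q w then g w else 0) := by
    intro w hw
    have hblk : Blk F w := (mem_filter.1 hw).2
    have hlen : 0 < w.length := by
      have h0 : 0 ∈ Cut F w := by rw [hblk.1]; exact mem_singleton_self 0
      exact ((mem_Cut F w 0).1 h0).1
    have hlen' : (0 : ℝ) < (w.length : ℝ) := by exact_mod_cast hlen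
    have hu : |(su F w : ℝ)| ≤ (w.length : ℝ) := by exact_mod_cast abs_su_le F w
    have ht : |(st F w : ℝ)| ≤ (w.length : ℝ) := by exact_mod_cast abs_st_le F w
    rw [blt_sym]
    have o1 : om F Lm 0 0 w = Real.exp (-(Lm * w.length)) := by
      unfold om; congr 1; ring
    have o2 : om F (Lm + lam / θ * v₂) (lam / θ) 0 w = Real.exp (-(Lm * w.length)) *
        Real.exp (lam / θ * ((su F w : ℝ) - v₂ * w.length)) := by
      unfold om
      rw [← Real.exp_add]
      congr 1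
      ring
    by_cases hcase : lam * (w.length : ℝ) ≤ τ ∨
        (su F w : ℝ) + |(st F w : ℝ)| ≤ (v₃ - d / 2) * (w.length : ℝ)
    · have h := hT v₂ v₃ (d / 2) θ (by rw [hv2]; linarith) (by linarith) (by rw [hv3]; linarith)
        (by positivity) hθ lam (w.length : ℝ) (su F w : ℝ) (st F w : ℝ) lam0 hlen' hu ht hcase
      have hnn : 0 ≤ (if Q w then g w else 0) := by
        split_ifs
        · exact (Real.exp_pos _).le
        · exact le_rfl
      have h2 := mul_le_mul_of_nonneg_left h (Real.exp_pos (-(Lm * w.length))).le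
      rw [o1, o2]
      calc Real.exp (-(Lm * w.length)) * (Real.exp (lam * ((su F w : ℝ) - v₃ * w.length)) *
            Real.cosh (lam * (st F w : ℝ)))
          ≤ Real.exp (-(Lm * w.length)) * (1 - θ +
              θ * Real.exp (lam / θ * ((su F w : ℝ) - v₂ * w.length))) := h2
        _ = (1 - θ) * Real.exp (-(Lm * w.length)) + θ * (Real.exp (-(Lm * w.length)) *
            Real.exp (lam / θ * ((su F w : ℝ) - v₂ * w.length))) := by ring
        _ ≤ _ := le_add_of_nonneg_right hnn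
    · push Not at hcase
      have hQw : Q w := by
        refine ⟨⟨hblk, ?_⟩, hcase.1⟩
        have h := hcase.2
        have e : v₃ - d / 2 = v₀ - 2 * d + d / 2 := by rw [hv3]; ring
        rw [e] at h
        exact h.le
      rw [if_pos hQw]
      have h1 : 0 ≤ (1 - θ) * om F Lm 0 0 w + θ * om F (Lm + lam / θ * v₂) (lam / θ) 0 w := by
        have := (om_pos F Lm 0 0 w).le
        have := (om_pos F (Lm + lam / θ * v₂) (lam / θ) 0 w).le
        have : 0 ≤ 1 - θ := by linarith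
        positivity
      have h2 : Real.exp (-(Lm * w.length)) *
          (Real.exp (lam * ((su F w : ℝ) - v₃ * w.length)) * Real.cosh (lam * (st F w : ℝ))) ≤
          g w := by
        rw [hg]
        simp only
        rw [Real.exp_add]
        apply mul_le_mul_of_nonneg_left _ (Real.exp_pos _).le
        calc Real.exp (lam * ((su F w : ℝ) - v₃ * w.length)) * Real.cosh (lam * (st F w : ℝ))
            ≤ Real.exp (lam * ((su F w : ℝ) - v₃ * w.length)) * Real.exp |lam * (st F w : ℝ)| :=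
              mul_le_mul_of_nonneg_left (blt_cosh_le _) (Real.exp_pos _).le
          _ = Real.exp (lam * ((su F w : ℝ) - v₃ * w.length) + |lam * (st F w : ℝ)|) := by
              rw [Real.exp_add]
          _ ≤ Real.exp (2 * lam * w.length) := by
              apply Real.exp_le_exp.2
              rw [abs_mul, abs_of_pos lam0]
              have i1 : (su F w : ℝ) ≤ w.length := (abs_le.1 hu).2
              have i2 : 0 ≤ v₃ * (w.length : ℝ) := by positivity
              have i3 : (su F w : ℝ) - v₃ * w.length + |(st F w : ℝ)| ≤ 2 * w.length := by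
                linarith
              calc lam * ((su F w : ℝ) - v₃ * w.length) + lam * |(st F w : ℝ)|
                  = lam * ((su F w : ℝ) - v₃ * w.length + |(st F w : ℝ)|) := by ring
                _ ≤ lam * (2 * w.length) := mul_le_mul_of_nonneg_left i3 lam0.le
                _ = _ := by ring
      linarith
  have hsum := sum_le_sum hterm
  rw [sum_add_distrib, sum_add_distrib, ← mul_sum, ← mul_sum, ← sum_div, sum_add_distrib,
    hsymm] at hsum
  have hq : ∑ w ∈ C.filter (Blk F), (if Q w then g w else 0) ≤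
      Real.exp (9 / y) * Real.exp (-(y * τ / 4 / lam)) := by
    rw [← sum_filter]
    refine le_trans ?_ b3
    apply sum_le_sum_of_subset_of_nonneg
    · intro w hw
      rw [mem_filter] at hw
      exact mem_filter.2 ⟨(mem_filter.1 hw.1).1, hw.2⟩
    · intro w _ _
      exact (Real.exp_pos _).le
  have h1 := mul_le_mul_of_nonneg_left b1 (by linarith : (0 : ℝ) ≤ 1 - θ)
  have h2 := mul_le_mul_of_nonneg_left b2 θ0.le
  linarith

end Pool.Agent.QSB
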