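import Pool.Agent.QSB.Stmts

/-!
# Project QSB, module CSU (helper12): the number of words with an explicit error
-/

set_option autoImplicit false

namespace Pool.Agent.QSB

open Finset Filter Topology
open Pool.Agent.Lib27 Pool.Agent.SUBB

namespace CSUx

/-- bridges grow at most like the connective constant -/
lemma Br_le_exp (l : ℕ) : ((Br l).card : ℝ) ≤ Real.exp (l * Lm) := by
  rcases Nat.eq_zero_or_pos l with rfl | hl
  · have h1 : Br 0 ⊆ {[]} := by
      intro s hs
      rw [mem_Br] at hs
      rw [mem_singleton]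
      exact List.length_eq_zero_iff.1 hs.1
    have := card_le_card h1
    rw [card_singleton] at this
    simp only [Nat.cast_zero, zero_mul, Real.exp_zero]
    exact_mod_cast this
  · rcases Nat.eq_zero_or_pos (Br l).card with h0 | h0
    · rw [h0]
      simp
      positivity
    · have hpow : ∀ k : ℕ, (Br l).card ^ k ≤ (Br (k * l)).card := by
        intro k
        induction k with
        | zero =>
          rw [pow_zero, zero_mul, Nat.one_le_iff_ne_zero, ← Nat.pos_iff_ne_zero, card_pos]
          refine ⟨[], ?_⟩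
          rw [mem_Br]
          exact ⟨rfl, by simp [SAWs], by simp⟩
        | succ k ih =>
          rw [pow_succ]
          calc (Br l).card ^ k * (Br l).card ≤ (Br (k * l)).card * (Br l).card :=
                Nat.mul_le_mul_right _ ih
            _ ≤ (Br (k * l + l)).card := Br_mul _ _
            _ = _ := by rw [add_mul, one_mul]
      have hBC : ∀ n, (Br n).card ≤ (Cs n).card := by
        intro n
        apply card_le_card
        intro s hs
        rw [mem_Br] at hs
        rw [mem_Cs]
        exact ⟨hs.1, hs.2.1⟩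
      have hlim : Tendsto (fun k : ℕ => Real.log (Cs (k * l)).card / (k * l : ℕ)) atTop (𝓝 Lm) := by
        apply tendsto_cs.comp
        apply tendsto_atTop_mono (f := fun k : ℕ => k) _ tendsto_id
        intro k
        exact Nat.le_mul_of_pos_right k hl
      have hlp : (0 : ℝ) < l := by exact_mod_cast hl
      have hle : Real.log (Br l).card / l ≤ Lm := by
        apply ge_of_tendsto hlim
        filter_upwards [eventually_ge_atTop 1] with k hk
        have hkp : (0 : ℝ) < k := by exact_mod_cast hk
        have h1 : (Br l).card ^ k ≤ (Cs (k * l)).card := (hpow k).trans (hBC _)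
        have h2 : (k : ℝ) * Real.log (Br l).card ≤ Real.log (Cs (k * l)).card := by
          rw [← Real.log_pow]
          apply Real.log_le_log (by positivity)
          exact_mod_cast h1
        push_cast
        rw [div_le_div_iff₀ hlp (by positivity)]
        nlinarith
      have h3 : Real.log (Br l).card ≤ l * Lm := by
        rw [div_le_iff₀ hlp] at hle
        linarith
      have h4 : (0 : ℝ) < (Br l).card := by exact_mod_cast h0
      rw [← Real.exp_log h4]
      exact Real.exp_le_exp.2 h3

/-- the number of words, with the error of Hammersley and Welsh -/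
lemma Cs_le_exp (l : ℕ) : ((Cs l).card : ℝ) * Real.exp (-(l * Lm)) ≤
    (l + 1) * Real.exp (5 * Real.sqrt (l + 1) + Lm) := by
  have h1 := Cs_Br l
  have h2 := Br_le_exp (l + 1)
  calc ((Cs l).card : ℝ) * Real.exp (-(l * Lm))
      ≤ ((l + 1) * Real.exp (5 * Real.sqrt (l + 1)) * Real.exp (((l + 1 : ℕ) : ℝ) * Lm)) *
        Real.exp (-(l * Lm)) := by
        apply mul_le_mul_of_nonneg_right _ (Real.exp_pos _).le
        exact h1.trans (mul_le_mul_of_nonneg_left h2 (by positivity))
    _ = (l + 1) * (Real.exp (5 * Real.sqrt (l + 1)) * Real.exp (((l + 1 : ℕ) : ℝ) * Lm) *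
        Real.exp (-(l * Lm))) := by ring
    _ = _ := by
        rw [← Real.exp_add, ← Real.exp_add]
        congr 2
        push_cast
        ring

end CSUx

theorem t_CSU : CSU_Stmt := by
  have hL := Lm_nonneg
  refine ⟨49 / 4 + 1 + Lm, by linarith, fun ε hε hε1 n => ?_⟩
  have h1 := CSUx.Cs_le_exp n
  set s : ℝ := Real.sqrt ((n : ℝ) + 1) with hs
  have hn : (0 : ℝ) ≤ (n : ℝ) + 1 := by positivity
  have hs0 : 0 < s := Real.sqrt_pos.2 (by positivity)
  have hss : s * s = (n : ℝ) + 1 := Real.mul_self_sqrt hn
  have h2 : ((n : ℝ) + 1) ≤ Real.exp (2 * s) := by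
    have h3 := Real.add_one_le_exp s
    have h4 : s ≤ Real.exp s := by linarith
    calc (n : ℝ) + 1 = s * s := hss.symm
      _ ≤ Real.exp s * Real.exp s := mul_le_mul h4 h4 hs0.le (Real.exp_pos _).le
      _ = Real.exp (2 * s) := by rw [← Real.exp_add]; congr 1; ring
  have h3 : ((Cs n).card : ℝ) ≤
      Real.exp (2 * s) * Real.exp (5 * s + Lm) * Real.exp (n * Lm) := by
    have h4 : ((Cs n).card : ℝ) =
        ((Cs n).card : ℝ) * Real.exp (-(n * Lm)) * Real.exp (n * Lm) := by
      rw [mul_assoc, ← Real.exp_add, neg_add_cancel, Real.exp_zero, mul_one]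
    rw [h4]
    refine mul_le_mul_of_nonneg_right (h1.trans ?_) (Real.exp_pos _).le
    exact mul_le_mul_of_nonneg_right h2 (Real.exp_pos _).le
  refine h3.trans ?_
  rw [← Real.exp_add, ← Real.exp_add, ← Real.exp_add]
  refine Real.exp_le_exp.2 ?_
  have h5 : 7 * s ≤ ε * ((n : ℝ) + 1) + 49 / 4 / ε := by
    rw [← hss, ← sub_nonneg]
    have h6 : ε * (s * s) + 49 / 4 / ε - 7 * s = (ε * s - 7 / 2) ^ 2 / ε := by
      field_simp
      ring
    rw [h6]
    positivity
  have h6 : (49 / 4 + 1 + Lm) / ε = 49 / 4 / ε + (1 + Lm) / ε := by ring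
  have h7 : 1 + Lm ≤ (1 + Lm) / ε := by
    rw [le_div_iff₀ hε]
    nlinarith
  rw [h6]
  nlinarith

end Pool.Agent.QSB
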