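import Pool.Agent.QSB.Stmts
import Pool.Agent.SUBB.ENT

/-!
# Module ENT (QSB): few small subsets, explicit level (helper48)
-/

set_option autoImplicit false

namespace Pool.Agent.QSB

open Finset Filter Topology
open Pool.Agent.Lib27 Pool.Agent.SUBB

namespace ENTx

theorem exponent {ε x : ℝ} (hε : 0 < ε) (h1 : ε ≤ 1) (hx : 64 / ε ^ 2 ≤ x) :
    2 * (Real.log x / x) + 1 / x ≤ ε := by
  have h64 : 0 < 64 / ε ^ 2 := by positivity
  have hx0 : 0 < x := lt_of_lt_of_le h64 hx
  have hs0 : 0 < √x := Real.sqrt_pos.2 hx0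
  have hss : √x * √x = x := Real.mul_self_sqrt hx0.le
  have hlog : Real.log x ≤ 2 * √x := by
    have h2 : Real.log x = 2 * Real.log (√x) := by
      have h3 := Real.log_mul hs0.ne' hs0.ne'
      rw [hss] at h3
      rw [h3]
      ring
    have h4 := Real.log_le_sub_one_of_pos hs0
    rw [h2]
    linarith
  have hs : 8 / ε ≤ √x := by
    apply Real.le_sqrt_of_sq_le
    refine le_trans (le_of_eq ?_) hx
    rw [div_pow]
    norm_num
  have h5 : Real.log x / x ≤ 2 / √x := by
    rw [div_le_div_iff₀ hx0 hs0]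
    calc Real.log x * √x ≤ 2 * √x * √x := mul_le_mul_of_nonneg_right hlog hs0.le
      _ = 2 * x := by rw [mul_assoc, hss]
  have h6 : 2 / √x ≤ ε / 4 := by
    rw [div_le_div_iff₀ hs0 (by norm_num)]
    rw [div_le_iff₀ hε] at hs
    linarith
  have h7 : 1 / x ≤ ε / 2 := by
    rw [div_le_div_iff₀ hx0 (by norm_num)]
    rw [div_le_iff₀ (by positivity)] at hx
    nlinarith
  linarith

end ENTx

open ENTx in
theorem t_ENT : ENT_Stmt := by
  intro ε hε hε1 L hL n
  have hLR : (0 : ℝ) < L := lt_of_lt_of_le (by positivity) hL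
  have hLpos : 0 < L := by exact_mod_cast hLR
  have hL1R : (1 : ℝ) ≤ L := by exact_mod_cast hLpos
  have hb := exponent hε hε1 hL
  have h := NB_le (n + 1) (2 * (n / L)) (1 / L) (by positivity) (by
    rw [div_le_one hLR]; exact hL1R)
  have hlog : 0 ≤ Real.log L := Real.log_nonneg hL1R
  -- the power of `L`
  have h1 : ((L : ℝ)) ^ (2 * (n / L)) ≤ Real.exp (2 * (Real.log L / L) * n) := by
    have hq : ((n / L : ℕ) : ℝ) ≤ (n : ℝ) / L := Nat.cast_div_le
    calc ((L : ℝ)) ^ (2 * (n / L)) = Real.exp (Real.log L * ((2 * (n / L) : ℕ) : ℝ)) := by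
          rw [mul_comm (Real.log (L : ℝ)), Real.exp_nat_mul, Real.exp_log hLR]
      _ ≤ _ := by
          apply Real.exp_le_exp.2
          push_cast
          calc Real.log L * (2 * ((n / L : ℕ) : ℝ)) ≤ Real.log L * (2 * ((n : ℝ) / L)) := by
                apply mul_le_mul_of_nonneg_left _ hlog
                linarith
            _ = _ := by ring
  have h2 : (1 + 1 / (L : ℝ)) ^ (n + 1) ≤ Real.exp (1 / (L : ℝ) * (n + 1)) := by
    have h3 : 1 + 1 / (L : ℝ) ≤ Real.exp (1 / (L : ℝ)) := by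
      rw [add_comm]; exact Real.add_one_le_exp _
    calc (1 + 1 / (L : ℝ)) ^ (n + 1) ≤ (Real.exp (1 / (L : ℝ))) ^ (n + 1) :=
          pow_le_pow_left₀ (by positivity) h3 _
      _ = _ := by
          rw [← Real.exp_nat_mul]
          push_cast
          ring_nf
  have h4 : (NB (n + 1) (2 * (n / L)) : ℝ) ≤
      ((L : ℝ)) ^ (2 * (n / L)) * (1 + 1 / (L : ℝ)) ^ (n + 1) := by
    rw [one_div_pow, mul_one_div, div_le_iff₀ (by positivity)] at h
    linarith
  calc (NB (n + 1) (2 * (n / L)) : ℝ)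
      ≤ ((L : ℝ)) ^ (2 * (n / L)) * (1 + 1 / (L : ℝ)) ^ (n + 1) := h4
    _ ≤ Real.exp (2 * (Real.log L / L) * n) * Real.exp (1 / (L : ℝ) * (n + 1)) :=
        mul_le_mul h1 h2 (by positivity) (Real.exp_pos _).le
    _ = Real.exp (2 * (Real.log L / L) * n + 1 / (L : ℝ) * (n + 1)) := by rw [Real.exp_add]
    _ ≤ Real.exp (1 + ε * n) := by
        apply Real.exp_le_exp.2
        have h5 : 1 / (L : ℝ) ≤ 1 := by rw [div_le_one hLR]; exact hL1R
        have h6 : (2 * (Real.log L / L) + 1 / (L : ℝ)) * n ≤ ε * n :=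
          mul_le_mul_of_nonneg_right hb (Nat.cast_nonneg _)
        nlinarith
    _ = _ := by rw [Real.exp_add]

end Pool.Agent.QSB
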