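import Pool.Agent.QSB.Stmts
import Pool.Agent.SUBB.Basic

/-!
# Project QSB, module GST: improvement of the threshold, with explicit levels
-/

set_option autoImplicit false

namespace Pool.Agent.QSB

open Finset Filter Topology
open Pool.Agent.Lib27 Pool.Agent.SUBB

namespace GSTx

/-- the sum over all self-avoiding words -/
lemma Gs_true (ω : Wo → ℝ) (N : ℕ) :
    Gs (fun _ => True) ω N = ∑ n ∈ range (N + 1), ∑ w ∈ Cs n, ω w := by
  classical
  unfold Gs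
  refine Finset.sum_congr rfl fun n _ => Finset.sum_congr ?_ fun _ _ => rfl
  ext w
  simp

/-- Chebyshev -/
lemma cheb (F : Frame) (s lam v' B : ℝ) (hl : 0 < lam)
    (h : ∀ N : ℕ, Gs (fun _ => True) (om F s lam lam) N ≤ B) (n : ℕ) [DecidablePred
      fun w : Wo => v' * (w.length : ℝ) ≤ ((su F w + st F w : ℤ) : ℝ)] :
    (((Cs n).filter (fun w => v' * (w.length : ℝ) ≤ ((su F w + st F w : ℤ) : ℝ))).card : ℝ) ≤
      B * Real.exp ((s - lam * v') * n) := by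
  have h1 := h n
  rw [Gs_true] at h1
  have h2 : ∑ w ∈ Cs n, om F s lam lam w ≤ B := by
    refine le_trans ?_ h1
    exact Finset.single_le_sum (f := fun m => ∑ w ∈ Cs m, om F s lam lam w)
      (fun m _ => Finset.sum_nonneg fun w _ => (Real.exp_pos _).le)
      (mem_range.2 (Nat.lt_succ_self n))
  have h3 : ∑ w ∈ (Cs n).filter (fun w => v' * (w.length : ℝ) ≤ ((su F w + st F w : ℤ) : ℝ)),
      Real.exp (-((s - lam * v') * n)) ≤ B := by
    refine le_trans ?_ h2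
    refine (Finset.sum_le_sum (g := fun w => om F s lam lam w) ?_).trans
      (Finset.sum_le_sum_of_subset_of_nonneg (Finset.filter_subset _ _)
        fun w _ _ => (Real.exp_pos _).le)
    intro w hw
    rw [mem_filter] at hw
    have hlen := Cs_length hw.1
    unfold om
    refine Real.exp_le_exp.2 ?_
    have h4 := mul_le_mul_of_nonneg_left hw.2 hl.le
    push_cast at h4
    rw [hlen] at h4 ⊢
    linarith [h4, mul_comm lam (v' * (n : ℝ))]
  rw [Finset.sum_const, nsmul_eq_mul] at h3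
  calc (((Cs n).filter (fun w => v' * (w.length : ℝ) ≤ ((su F w + st F w : ℤ) : ℝ))).card : ℝ)
      = (((Cs n).filter (fun w => v' * (w.length : ℝ) ≤
          ((su F w + st F w : ℤ) : ℝ))).card : ℝ) *
          Real.exp (-((s - lam * v') * n)) * Real.exp ((s - lam * v') * n) := by
        rw [mul_assoc, ← Real.exp_add]
        simp
    _ ≤ B * Real.exp ((s - lam * v') * n) :=
        mul_le_mul_of_nonneg_right h3 (Real.exp_pos _).le

/-- the words of length one -/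
lemma one_step (F : Frame) (s lam : ℝ) (hs : 0 ≤ s) (hl : 0 < lam) (hl1 : lam ≤ 1 / 2) :
    ∑ w ∈ Cs 1, om F s lam lam w ≤ 12 := by
  have h1 : ∀ w ∈ Cs 1, om F s lam lam w ≤ 3 := by
    intro w hw
    have hlen := Cs_length hw
    unfold om
    have h2 := abs_su_le F w
    have h3 := abs_st_le F w
    rw [hlen] at h2 h3 ⊢
    have h4 : (su F w : ℝ) ≤ 1 := by exact_mod_cast (abs_le.1 h2).2
    have h5 : (st F w : ℝ) ≤ 1 := by exact_mod_cast (abs_le.1 h3).2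
    have h6 : -(s * ((1 : ℕ) : ℝ)) + lam * (su F w : ℝ) + lam * (st F w : ℝ) ≤ 1 := by
      push_cast
      nlinarith
    refine (Real.exp_le_exp.2 h6).trans ?_
    have h7 := Real.exp_one_lt_d9
    linarith
  have h2 : ((Cs 1).card : ℝ) ≤ 4 := by
    have := Cs_le 1
    exact_mod_cast this
  calc ∑ w ∈ Cs 1, om F s lam lam w ≤ ∑ w ∈ Cs 1, (3 : ℝ) := Finset.sum_le_sum h1
    _ = ((Cs 1).card : ℝ) * 3 := by rw [Finset.sum_const, nsmul_eq_mul]
    _ ≤ 12 := by linarith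

/-- the constant -/
lemma const (y S B : ℝ) (K : ℕ) (hy : 8 ≤ y) (hS0 : 0 ≤ S) (hS : S ≤ 12)
    (hB : B = Real.exp (y ^ K)) :
    B + B * ((1 + S * B) / (4 * y)⁻¹) ≤ Real.exp (y ^ (K + 2)) := by
  have hy0 : 0 < y := by linarith
  have hyK : 1 ≤ y ^ K := one_le_pow₀ (by linarith)
  have hB1 : 1 ≤ B := by
    rw [hB]
    exact Real.one_le_exp (by linarith)
  have e1 : B + B * ((1 + S * B) / (4 * y)⁻¹) = B + B * (1 + S * B) * (4 * y) := by
    rw [div_inv_eq_mul, mul_assoc]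
  have e2 : B + B * (1 + S * B) * (4 * y) ≤ 53 * y * (B * B) := by
    have a1 : B ≤ B * B := by nlinarith
    have a2 : B * (1 + S * B) ≤ 13 * (B * B) := by nlinarith
    have a3 : B * (1 + S * B) * (4 * y) ≤ 13 * (B * B) * (4 * y) :=
      mul_le_mul_of_nonneg_right a2 (by linarith)
    have a0 : 0 ≤ B * B := mul_self_nonneg B
    have a4 : B * B ≤ y * (B * B) := by nlinarith
    linarith
  have e3 : (53 : ℝ) ≤ Real.exp 5 := by
    have b1 := Real.exp_one_gt_d9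
    have b2 : Real.exp 5 = Real.exp 1 ^ 5 := by
      rw [← Real.exp_nat_mul]
      norm_num
    rw [b2]
    have b3 : (2.7 : ℝ) ^ 5 ≤ Real.exp 1 ^ 5 := pow_le_pow_left₀ (by norm_num) (by linarith) 5
    refine le_trans ?_ b3
    norm_num
  have e4 : y ≤ Real.exp y := by
    have := Real.add_one_le_exp y
    linarith
  have e5 : 53 * y * (B * B) ≤ Real.exp (5 + y + (y ^ K + y ^ K)) := by
    rw [Real.exp_add, Real.exp_add, Real.exp_add (y ^ K), ← hB]
    refine mul_le_mul_of_nonneg_right ?_ (by positivity)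
    exact mul_le_mul e3 e4 hy0.le (Real.exp_pos _).le
  have e6 : 5 + y + (y ^ K + y ^ K) ≤ y ^ (K + 2) := by
    have c1 : y ^ (K + 2) = y * (y * y ^ K) := by ring
    have c2 : y ≤ y * y ^ K := by nlinarith
    have c3 : y ^ K ≤ y * y ^ K := by nlinarith
    have c4 : 1 ≤ y * y ^ K := by linarith
    rw [c1]
    have c5 : 8 * (y * y ^ K) ≤ y * (y * y ^ K) := by nlinarith
    linarith
  rw [e1]
  exact (e2.trans e5).trans (Real.exp_le_exp.2 e6)

end GSTx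

open GSTx

/-- GST. -/
theorem t_GST (hNCT : NCT_Stmt) (hNCF : NCF_Stmt) (hBLT : BLT_Stmt) (hREN2 : REN2_Stmt) :
    GST_Stmt := by
  classical
  obtain ⟨K₁, hNCT⟩ := hNCT
  obtain ⟨K₂, hBLT⟩ := hBLT
  obtain ⟨K₃, hNCF⟩ := hNCF
  refine ⟨((K₁ + 2) * (K₂ + 2) + 1) * (K₃ + 2), ?_⟩
  intro F v₁ v₀ d l h1 h10 h0 hd hd1 hl hl1 hU hUT
  -- the level `x`
  obtain ⟨x, hx⟩ : ∃ x : ℝ, x = l * d := ⟨_, rfl⟩
  have hx0 : 0 < x := hx ▸ mul_pos hl hd
  have hx1 : x ≤ 1 / 4 := by rw [hx]; nlinarith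
  have hxd : x ≤ d := by rw [hx]; nlinarith
  have hxl : x ≤ l := by rw [hx]; nlinarith
  -- the level for the words without cut time
  obtain ⟨l₁, hl₁⟩ : ∃ l₁ : ℝ, l₁ = x ^ (K₁ + 1) := ⟨_, rfl⟩
  have hl₁0 : 0 < l₁ := hl₁ ▸ pow_pos hx0 _
  have hl₁x : l₁ ≤ x := by
    rw [hl₁]
    calc x ^ (K₁ + 1) ≤ x ^ 1 := pow_le_pow_of_le_one hx0.le (by linarith) (by omega)
      _ = x := pow_one x
  have hl₁K : l₁ ≤ x ^ K₁ := by
    rw [hl₁]
    exact pow_le_pow_of_le_one hx0.le (by linarith) (by omega)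
  have hNC0 : QT l₁ (fun w => Cut F w = ∅ ∧
      (v₀ - 2 * d) * (w.length : ℝ) ≤ ((su F w + st F w : ℤ) : ℝ)) := by
    refine QT_anti hl₁0 hl₁K ?_
    have := hNCT F v₁ v₀ d l h1 h10 h0 hd hd1 hl hl1 hU hUT
    rwa [← hx] at this
  have hU1 : QT l₁ (fun w => v₁ * (w.length : ℝ) ≤ (su F w : ℝ)) :=
    QT_anti hl₁0 (hl₁x.trans hxl) hU
  -- the parameter of the exponential moments
  obtain ⟨z, hz⟩ : ∃ z : ℝ, z = l₁ * d := ⟨_, rfl⟩
  have hz0 : 0 < z := hz ▸ mul_pos hl₁0 hd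
  have hz1 : z ≤ 1 / 8 := by rw [hz]; nlinarith
  obtain ⟨lam, hlam⟩ : ∃ lam : ℝ, lam = z ^ (K₂ + 2) := ⟨_, rfl⟩
  have hlam0 : 0 < lam := hlam ▸ pow_pos hz0 _
  have hlamK : lam ≤ z ^ K₂ := by
    rw [hlam]
    exact pow_le_pow_of_le_one hz0.le (by linarith) (by omega)
  have hlam2 : lam ≤ z ^ 2 := by
    rw [hlam]
    exact pow_le_pow_of_le_one hz0.le (by linarith) (by omega)
  have hlaml : lam ≤ l₁ / 4 := by
    have a1 : z ^ 2 = l₁ * (d * z) := by rw [sq, hz]; ring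
    have a2 : d * z ≤ 1 / 4 := by nlinarith
    nlinarith
  have hlam8 : lam ≤ 1 / 8 := by nlinarith
  -- blocks
  have hblk := hBLT F v₁ v₀ d l₁ h1 h10 h0 hd hd1 hl₁0 (by linarith) hU1 hNC0 lam hlam0
    (by rwa [← hz])
  -- words without cut time
  have hnc := hNCF F (v₀ - 2 * d) d l₁ lam (by linarith) (by linarith) hd hd1 hl₁0
    (by linarith) hNC0 hlam0 hlaml
  have hv : v₀ - 2 * d + d = v₀ - d := by ring
  rw [hv] at hnc
  -- all words
  obtain ⟨u, hu⟩ : ∃ u : ℝ, u = lam * d := ⟨_, rfl⟩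
  have hu0 : 0 < u := hu ▸ mul_pos hlam0 hd
  have hu1 : u ≤ 1 / 16 := by rw [hu]; nlinarith
  have hall := hREN2 F (Lm + lam * (v₀ - d)) lam lam (1 - lam * d / 4)
    (Real.exp ((1 / (lam * d)) ^ K₃)) (by nlinarith) hblk hnc
  have hs : 0 ≤ Lm + lam * (v₀ - d) := by
    have a1 := Lm_nonneg
    have a2 : 0 ≤ lam * (v₀ - d) := mul_nonneg hlam0.le (by linarith)
    linarith
  have hS := one_step F (Lm + lam * (v₀ - d)) lam hs hlam0 (by linarith)
  have hS0 : 0 ≤ ∑ w ∈ Cs 1, om F (Lm + lam * (v₀ - d)) lam lam w :=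
    Finset.sum_nonneg fun w _ => (Real.exp_pos _).le
  have hy : 8 ≤ 1 / u := by
    rw [le_div_iff₀ hu0]
    linarith
  have hC := const (1 / u) _ _ K₃ hy hS0 hS rfl
  have hρ : 1 - (1 - lam * d / 4) = (4 * (1 / u))⁻¹ := by
    rw [hu]
    field_simp
    ring
  rw [hρ, ← hu] at hall
  have hall' : ∀ N : ℕ, Gs (fun _ => True) (om F (Lm + lam * (v₀ - d)) lam lam) N ≤
      Real.exp ((1 / u) ^ (K₃ + 2)) := fun N => (hall N).trans hC
  -- the level
  have hQ : QT (u ^ (K₃ + 2))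
      (fun w => (v₀ - d / 2) * (w.length : ℝ) ≤ ((su F w + st F w : ℤ) : ℝ)) := by
    rw [QT_iff]
    intro n
    have b1 := cheb F (Lm + lam * (v₀ - d)) lam (v₀ - d / 2) _ hlam0 hall' n
    refine b1.trans ?_
    have b2 : 1 / u ^ (K₃ + 2) = (1 / u) ^ (K₃ + 2) := by
      rw [one_div, one_div, inv_pow]
    rw [b2]
    refine mul_le_mul_of_nonneg_left (Real.exp_le_exp.2 ?_) (Real.exp_pos _).le
    refine mul_le_mul_of_nonneg_right ?_ (Nat.cast_nonneg n)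
    have b3 : Lm + lam * (v₀ - d) - lam * (v₀ - d / 2) = Lm - u / 2 := by rw [hu]; ring
    rw [b3]
    have b4 : u ^ (K₃ + 2) ≤ u ^ 2 := pow_le_pow_of_le_one hu0.le (by linarith) (by omega)
    nlinarith
  refine QT_anti (pow_pos (mul_pos hl hd) _) ?_ hQ
  rw [← hx, pow_mul]
  refine pow_le_pow_left₀ (pow_nonneg hx0.le _) ?_ _
  -- `x ^ ((K₁ + 2) (K₂ + 2) + 1) ≤ u`
  have c1 : x ^ (K₁ + 2) ≤ z := by
    rw [hz, hl₁]
    calc x ^ (K₁ + 2) = x ^ (K₁ + 1) * x := pow_succ x (K₁ + 1)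
      _ ≤ x ^ (K₁ + 1) * d := mul_le_mul_of_nonneg_left hxd (pow_nonneg hx0.le _)
  calc x ^ ((K₁ + 2) * (K₂ + 2) + 1) = (x ^ (K₁ + 2)) ^ (K₂ + 2) * x := by
        rw [pow_succ, pow_mul]
    _ ≤ z ^ (K₂ + 2) * d :=
        mul_le_mul (pow_le_pow_left₀ (pow_nonneg hx0.le _) c1 _) hxd hx0.le
          (pow_nonneg hz0.le _)
    _ = u := by rw [hu, hlam]

end Pool.Agent.QSB
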