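import Pool.Agent.QSB.Stmts

/-!
# Project QSB: the limit inequality
-/

set_option autoImplicit false

namespace Pool.Agent.QSB

open Finset Filter Topology
open Pool.Agent.Lib27 Pool.Agent.SUBB

theorem t_LIM : LIM_Stmt := by
  intro θ η c κ lam hθ hη hc hκ hlam h1 h2 h3
  have hx0 : 0 ≤ lam / θ * η := by positivity
  have hx1 : lam / θ * η ≤ 1 := by
    rw [div_mul_eq_mul_div, div_le_one hθ]
    exact h1
  have h4 := one_sub_exp_ge hx0 hx1
  have h5 : θ * Real.exp (-(lam / θ * η)) ≤ θ - lam * η / 2 := by
    have h6 : Real.exp (-(lam / θ * η)) ≤ 1 - lam / θ * η / 2 := by linarith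
    have h7 := mul_le_mul_of_nonneg_left h6 hθ.le
    have h8 : θ * (1 - lam / θ * η / 2) = θ - lam * η / 2 := by
      field_simp
    rw [h8] at h7
    exact h7
  have hy : 0 < c / (2 * lam) := by positivity
  have h9 : Real.exp κ * Real.exp (-(c / lam)) ≤ Real.exp (-(c / (2 * lam))) := by
    rw [← Real.exp_add]
    apply Real.exp_le_exp.2
    have h10 : κ ≤ c / (2 * lam) := by
      rw [le_div_iff₀ (by positivity)]
      linarith
    have h11 : c / lam = c / (2 * lam) + c / (2 * lam) := by
      field_simp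
      ring
    rw [h11]
    linarith
  have h12 : Real.exp (-(c / (2 * lam))) ≤ lam * η / 4 := by
    have h13 := Real.quadratic_le_exp_of_nonneg hy.le
    have h14 : (c / (2 * lam)) ^ 2 / 2 ≤ Real.exp (c / (2 * lam)) := by linarith
    have h15 : 0 < (c / (2 * lam)) ^ 2 / 2 := by positivity
    rw [Real.exp_neg]
    refine (inv_anti₀ h15 h14).trans ?_
    rw [inv_le_comm₀ h15 (by positivity)]
    rw [inv_eq_one_div, div_le_div_iff₀ (by positivity) (by norm_num)]
    have h16 : (c / (2 * lam)) ^ 2 * (lam * η / 4) = c ^ 2 * η / (16 * lam) := by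
      field_simp
      ring
    rw [h16, le_div_iff₀ (by positivity)]
    nlinarith
  linarith

end Pool.Agent.QSB
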