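import Pool.Agent.QSB.Stmts

/-!
# QSB, module LRB: long rare blocks (helper52)
-/

set_option autoImplicit false

namespace Pool.Agent.QSB

open Finset Filter Topology
open Pool.Agent.Lib27 Pool.Agent.SUBB

open Classical in
theorem t_LRB : LRB_Stmt := by
  intro P τ l lam hτ hl hl2 hP hlam hlam4 N
  have hC : ∀ n : ℕ, (((Cs n).filter P).card : ℝ) ≤ Real.exp (1 / l) * Real.exp ((Lm - l) * n) :=
    (QT_iff l P).1 hP
  have hC0 : 0 ≤ Real.exp (1 / l) := (Real.exp_pos _).le
  obtain ⟨Q, hQ⟩ : ∃ Q : Wo → Prop, Q = fun w => P w ∧ τ < lam * (w.length : ℝ) := ⟨_, rfl⟩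
  rw [← hQ]
  unfold Gs
  have hQ' : ∀ w, Q w ↔ P w ∧ τ < lam * (w.length : ℝ) := fun w => by rw [hQ]
  have hterm : ∀ n ∈ range (N + 1),
      ∑ w ∈ (Cs n).filter Q,
        Real.exp (-(Lm * (w.length : ℝ)) + 2 * lam * (w.length : ℝ)) ≤
      (Real.exp (1 / l) * Real.exp (-(l * τ / 4 / lam))) * Real.exp (-(l / 4 * (n : ℝ))) := by
    intro n _
    by_cases hn : τ < lam * (n : ℝ)
    · calc ∑ w ∈ (Cs n).filter Q,
            Real.exp (-(Lm * (w.length : ℝ)) + 2 * lam * (w.length : ℝ))
          = ∑ w ∈ (Cs n).filter Q,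
            Real.exp (-(Lm * (n : ℝ)) + 2 * lam * (n : ℝ)) := by
              refine Finset.sum_congr rfl fun w hw => ?_
              rw [Cs_length (Finset.mem_filter.1 hw).1]
        _ ≤ ∑ w ∈ (Cs n).filter P, Real.exp (-(Lm * (n : ℝ)) + 2 * lam * (n : ℝ)) := by
              refine Finset.sum_le_sum_of_subset_of_nonneg (fun w hw => ?_)
                (fun w _ _ => (Real.exp_pos _).le)
              obtain ⟨h1, h2⟩ := Finset.mem_filter.1 hw
              exact Finset.mem_filter.2 ⟨h1, ((hQ' w).1 h2).1⟩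
        _ = (((Cs n).filter P).card : ℝ) * Real.exp (-(Lm * (n : ℝ)) + 2 * lam * (n : ℝ)) := by
              rw [Finset.sum_const, nsmul_eq_mul]
        _ ≤ (Real.exp (1 / l) * Real.exp ((Lm - l) * n)) *
              Real.exp (-(Lm * (n : ℝ)) + 2 * lam * (n : ℝ)) :=
              mul_le_mul_of_nonneg_right (hC n) (Real.exp_pos _).le
        _ = Real.exp (1 / l) * Real.exp (-(l * n) + 2 * lam * n) := by
              rw [mul_assoc, ← Real.exp_add]
              congr 2
              ring
        _ ≤ Real.exp (1 / l) * Real.exp (-(l * τ / 4 / lam) + -(l / 4 * (n : ℝ))) := by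
              refine mul_le_mul_of_nonneg_left (Real.exp_le_exp.2 ?_) hC0
              have hn0 : (0 : ℝ) ≤ n := Nat.cast_nonneg n
              have h1 : lam * n ≤ l / 4 * n := mul_le_mul_of_nonneg_right hlam4 hn0
              have h2 : τ / lam ≤ n := (div_le_iff₀ hlam).2 (by linarith)
              have h3 : l * τ / 4 / lam = l / 4 * (τ / lam) := by ring
              have h4 : l / 4 * (τ / lam) ≤ l / 4 * n :=
                mul_le_mul_of_nonneg_left h2 (by positivity)
              rw [h3]
              linarith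
        _ = _ := by
              rw [Real.exp_add, mul_assoc]
    · have h0 : (Cs n).filter Q = ∅ := by
        rw [Finset.filter_eq_empty_iff]
        intro w hw h1
        have h2 := ((hQ' w).1 h1).2
        rw [Cs_length hw] at h2
        exact hn h2
      rw [h0, Finset.sum_empty]
      positivity
  have hgeo : ∑ n ∈ range (N + 1), Real.exp (-(l / 4 * (n : ℝ))) ≤ 2 / (l / 4) :=
    geo_le (l / 4) (by positivity) (by linarith) N
  refine (Finset.sum_le_sum hterm).trans ?_
  calc ∑ n ∈ range (N + 1),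
        (Real.exp (1 / l) * Real.exp (-(l * τ / 4 / lam))) * Real.exp (-(l / 4 * (n : ℝ))) =
          (Real.exp (1 / l) * Real.exp (-(l * τ / 4 / lam))) *
            ∑ n ∈ range (N + 1), Real.exp (-(l / 4 * (n : ℝ))) := by
        rw [Finset.mul_sum]
    _ ≤ (Real.exp (1 / l) * Real.exp (-(l * τ / 4 / lam))) * (2 / (l / 4)) :=
        mul_le_mul_of_nonneg_left hgeo (by positivity)
    _ = Real.exp (1 / l) * (8 / l) * Real.exp (-(l * τ / 4 / lam)) := by
        rw [show (2 : ℝ) / (l / 4) = 8 / l by field_simp; norm_num]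
        ring

end Pool.Agent.QSB
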