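import Pool.Agent.QSB.Stmts
import Pool.Agent.SUBB.NCF

/-!
# NCF: the total weight of the words without cut times, explicit bound
-/

set_option autoImplicit false

namespace Pool.Agent.QSB

open Finset Filter Topology
open Pool.Agent.Lib27 Pool.Agent.SUBB

namespace NCFx

/-- the bound by one exponential -/
lemma fin_bound (C y : ℝ) (m : ℕ) (hC : 0 < C) (hm : 2 * C + 5 < 16 ^ m) (hy : 16 ≤ y) :
    Real.exp (2 * C * y) * (4 * y) + Real.exp y * y ≤ Real.exp (y ^ (m + 1)) := by
  have h1 : 4 * y ≤ Real.exp (4 * y) := by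
    have := Real.add_one_le_exp (4 * y)
    linarith
  have h2 : y ≤ Real.exp y := by
    have := Real.add_one_le_exp y
    linarith
  have h3 : Real.exp (2 * C * y) * (4 * y) ≤ Real.exp ((2 * C + 4) * y) := by
    calc Real.exp (2 * C * y) * (4 * y) ≤ Real.exp (2 * C * y) * Real.exp (4 * y) :=
          mul_le_mul_of_nonneg_left h1 (Real.exp_pos _).le
      _ = Real.exp ((2 * C + 4) * y) := by
        rw [← Real.exp_add]
        congr 1
        ring
  have h4 : Real.exp y * y ≤ Real.exp ((2 * C + 4) * y) := by
    calc Real.exp y * y ≤ Real.exp y * Real.exp y :=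
          mul_le_mul_of_nonneg_left h2 (Real.exp_pos _).le
      _ = Real.exp (2 * y) := by
        rw [← Real.exp_add]
        congr 1
        ring
      _ ≤ _ := by
        apply Real.exp_le_exp.2
        nlinarith
  have h5 : (2 : ℝ) ≤ Real.exp y := by
    have := Real.add_one_le_exp y
    linarith
  have h6 : (2 * C + 5) * y ≤ y ^ (m + 1) := by
    rw [pow_succ]
    apply mul_le_mul_of_nonneg_right _ (by linarith)
    exact hm.le.trans (pow_le_pow_left₀ (by norm_num) hy m)
  calc Real.exp (2 * C * y) * (4 * y) + Real.exp y * y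
      ≤ 2 * Real.exp ((2 * C + 4) * y) := by linarith
    _ ≤ Real.exp y * Real.exp ((2 * C + 4) * y) :=
        mul_le_mul_of_nonneg_right h5 (Real.exp_pos _).le
    _ = Real.exp ((2 * C + 5) * y) := by
        rw [← Real.exp_add]
        congr 1
        ring
    _ ≤ _ := Real.exp_le_exp.2 h6

end NCFx

/-- NCF. The total weight of the words without cut times -/
theorem t_NCF (h : CSU_Stmt) : NCF_Stmt := by
  classical
  obtain ⟨C, hC, hcs⟩ := h
  obtain ⟨m, hm⟩ := pow_unbounded_of_one_lt (2 * C + 5) (show (1 : ℝ) < 16 by norm_num)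
  refine ⟨m + 1, fun F v d l lam hv hv3 hd hd2 hl hl2 hQ hlam hlam4 N => ?_⟩
  have hld : 0 < lam * d := mul_pos hlam hd
  have hlam8 : lam ≤ 1 / 8 := by linarith
  have hld16 : lam * d ≤ 1 / 16 := by
    calc lam * d ≤ 1 / 8 * (1 / 2) := mul_le_mul hlam8 hd2 hd.le (by norm_num)
      _ = 1 / 16 := by norm_num
  have hε1 : lam * d / 2 ≤ 1 := by linarith
  have hy : 16 ≤ 1 / (lam * d) := by
    rw [le_div_iff₀ hld]
    linarith
  have hvd : v + d - v = d := by ring
  have h1 : ∀ n : ℕ, ((Cs n).card : ℝ) ≤ Real.exp (C / (lam * d / 2)) *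
      Real.exp ((Lm + lam * (v + d - v) / 2) * n) := by
    intro n
    rw [hvd]
    exact hcs (lam * d / 2) (by positivity) hε1 n
  rw [QT_iff] at hQ
  unfold Gs
  calc _ ≤ ∑ n ∈ range (N + 1), (Real.exp (C / (lam * d / 2)) *
        Real.exp (-(lam * (v + d - v) / 2 * (n : ℝ))) +
        Real.exp (1 / l) * Real.exp (-(l / 2 * (n : ℝ)))) := by
        refine Finset.sum_le_sum fun n _ => ?_
        have h9 := NCFW.one_len F v (v + d) lam l (Real.exp (1 / l))
          (Real.exp (C / (lam * d / 2))) (by linarith) hlam hlam4 (Real.exp_pos _).le n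
          (le_trans (le_of_eq (congrArg (fun s : Finset Wo => (s.card : ℝ))
            (by ext w; simp [mem_filter]))) (hQ n)) (h1 n)
        refine le_trans (le_of_eq ?_) h9
        exact Finset.sum_congr (by ext w; simp [mem_filter]) fun _ _ => rfl
    _ = Real.exp (C / (lam * d / 2)) * ∑ n ∈ range (N + 1),
          Real.exp (-(lam * d / 2 * (n : ℝ))) +
        Real.exp (1 / l) * ∑ n ∈ range (N + 1), Real.exp (-(l / 2 * (n : ℝ))) := by
        rw [Finset.sum_add_distrib, Finset.mul_sum, Finset.mul_sum, hvd]
    _ ≤ Real.exp (C / (lam * d / 2)) * (2 / (lam * d / 2)) +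
        Real.exp (1 / l) * (2 / (l / 2)) := by
        refine add_le_add (mul_le_mul_of_nonneg_left (geo_le _ (by positivity) hε1 N)
          (Real.exp_pos _).le) (mul_le_mul_of_nonneg_left (geo_le _ (by positivity)
          (by linarith) N) (Real.exp_pos _).le)
    _ ≤ Real.exp (2 * C * (1 / (lam * d))) * (4 * (1 / (lam * d))) +
        Real.exp (1 / (lam * d)) * (1 / (lam * d)) := by
        refine add_le_add (le_of_eq ?_) ?_
        · congr 1
          · congr 1
            field_simp
          · field_simp
            norm_num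
        · have h2 : 4 / l ≤ 1 / (lam * d) := by
            rw [div_le_div_iff₀ hl hld]
            nlinarith
          have h3 : 1 / l ≤ 1 / (lam * d) := by
            have : 1 / l ≤ 4 / l := by
              rw [div_le_div_iff₀ hl hl]
              nlinarith
            linarith
          have h4 : 2 / (l / 2) = 4 / l := by
            field_simp
            norm_num
          rw [h4]
          exact mul_le_mul (Real.exp_le_exp.2 h3) h2 (by positivity) (Real.exp_pos _).le
    _ ≤ _ := NCFx.fin_bound C _ m hC hm hy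

end Pool.Agent.QSB
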