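import Pool.Agent.QSB.Stmts
import Pool.Agent.SUBB.NCT

/-!
# Project QSB, module NCT: words without cut times and large displacement are rare
-/

set_option autoImplicit false

namespace Pool.Agent.QSB

open Finset Filter Topology
open Pool.Agent.Lib27 Pool.Agent.SUBB

namespace NCTx

/-- large displacements in the `t`-direction are rare -/
lemma QT_st (hMAP : MAP_Stmt) (F : Frame) (v l : ℝ)
    (h : QT l (fun w => v * (w.length : ℝ) ≤ (su F w : ℝ))) :
    QT l (fun w => v * (w.length : ℝ) ≤ (st F w : ℝ)) := by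
  classical
  rw [QT_iff] at h ⊢
  intro n
  refine le_trans ?_ (h n)
  have : ((Cs n).filter (fun w => v * (w.length : ℝ) ≤ (st F w : ℝ))).card ≤
      ((Cs n).filter (fun w => v * (w.length : ℝ) ≤ (su F w : ℝ))).card := by
    apply card_le_card_of_injOn (fun w => w.map F.sw)
    · intro w hw
      rw [mem_coe, mem_filter] at hw ⊢
      refine ⟨((hMAP F n w).2.1).2 hw.1, ?_⟩
      rw [List.length_map, su_map_sw]
      exact hw.2
    · intro w _ w' _ he
      have he' : (w.map F.sw).map F.sw = (w'.map F.sw).map F.sw := congrArg _ he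
      rwa [map_sw_sw, map_sw_sw] at he'
  exact_mod_cast this

/-- words with many large backtracks are rare -/
lemma QT_large (hENT : ENT_Stmt) (hLRG : LRG_Stmt) (F : Frame) (a d l : ℝ) (hl : 0 < l)
    (hl1 : l ≤ 1 / 2) (h : QT l (fun w => (a + 2 * d) * (w.length : ℝ) ≤
      ((su F w + st F w : ℤ) : ℝ))) (L : ℕ) (hL : 0 < L) (hL' : 256 / l ^ 2 ≤ (L : ℝ)) :
    QT (l / 2) (fun w => a * (w.length : ℝ) ≤ ((su F w + st F w : ℤ) : ℝ) ∧
      d * (w.length : ℝ) ≤
        ((∑ q ∈ (V F w).filter (fun q => L ≤ sz F w q), sz F w q : ℕ) : ℝ)) := by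
  classical
  rw [QT_iff] at h ⊢
  have hE := hENT (l / 2) (half_pos hl) (by linarith) L (by
    refine le_trans (le_of_eq ?_) hL'
    field_simp
    norm_num)
  intro n
  have hl2 : ((((Cs n).filter (fun w => a * (n : ℝ) ≤ ((su F w + st F w : ℤ) : ℝ) ∧
      d * (n : ℝ) ≤ ((∑ q ∈ (V F w).filter (fun q => L ≤ sz F w q), sz F w q : ℕ) : ℝ))).card
        : ℕ) : ℝ) ≤ (NB (n + 1) (2 * (n / L)) : ℝ) *
      (((Cs n).filter (fun w => a * (n : ℝ) + 2 * (d * n) ≤
        ((su F w + st F w : ℤ) : ℝ))).card : ℝ) := by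
    convert hLRG F n L hL (a * n) (d * n) using 3
  have e1 : (Cs n).filter (fun w => a * (w.length : ℝ) ≤ ((su F w + st F w : ℤ) : ℝ) ∧
      d * (w.length : ℝ) ≤
        ((∑ q ∈ (V F w).filter (fun q => L ≤ sz F w q), sz F w q : ℕ) : ℝ)) =
      (Cs n).filter (fun w => a * (n : ℝ) ≤ ((su F w + st F w : ℤ) : ℝ) ∧
      d * (n : ℝ) ≤
        ((∑ q ∈ (V F w).filter (fun q => L ≤ sz F w q), sz F w q : ℕ) : ℝ)) := by
    apply filter_congr
    intro w hw
    rw [Cs_length hw]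
  have e2 : (Cs n).filter (fun w => a * (n : ℝ) + 2 * (d * n) ≤ ((su F w + st F w : ℤ) : ℝ)) =
      (Cs n).filter (fun w => (a + 2 * d) * (w.length : ℝ) ≤ ((su F w + st F w : ℤ) : ℝ)) := by
    apply filter_congr
    intro w hw
    rw [Cs_length hw]
    have : a * (n : ℝ) + 2 * (d * n) = (a + 2 * d) * n := by ring
    rw [this]
  rw [e1]
  rw [e2] at hl2
  refine hl2.trans ?_
  have h3 : 1 + 1 / l ≤ 1 / (l / 2) := by
    have h4 : 1 / (l / 2) = 1 / l + 1 / l := by
      field_simp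
      norm_num
    have h5 : (1 : ℝ) ≤ 1 / l := by
      rw [le_div_iff₀ hl]
      linarith
    linarith
  calc (NB (n + 1) (2 * (n / L)) : ℝ) *
        (((Cs n).filter (fun w => (a + 2 * d) * (w.length : ℝ) ≤
          ((su F w + st F w : ℤ) : ℝ))).card : ℝ)
      ≤ (Real.exp 1 * Real.exp (l / 2 * n)) * (Real.exp (1 / l) * Real.exp ((Lm - l) * n)) :=
        mul_le_mul (hE n) (h n) (Nat.cast_nonneg _) (by positivity)
    _ = Real.exp (1 + 1 / l) * Real.exp ((Lm - l / 2) * n) := by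
        rw [← Real.exp_add, ← Real.exp_add, ← Real.exp_add, ← Real.exp_add]
        congr 1
        ring
    _ ≤ _ := mul_le_mul_of_nonneg_right (Real.exp_le_exp.2 h3) (Real.exp_pos _).le

/-- the exponent -/
noncomputable def ka (d : ℝ) (L : ℕ) : ℝ := 5 * d / L * Real.log (1 + 1 / (1000 * (L : ℝ) ^ 2))

/-- words without cut times, large displacement, and mostly small backtracks are rare -/
lemma QT_small {C : ℝ} (hC : 0 < C) (hCs : ∀ ε : ℝ, 0 < ε → ε ≤ 1 → ∀ n : ℕ,
    ((Cs n).card : ℝ) ≤ Real.exp (C / ε) * Real.exp ((Lm + ε) * n)) (hCOV : COV_Stmt)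
    (hSML : SML_Stmt) (F : Frame) (d : ℝ) (hd : 0 < d) (L : ℕ) (hL : 0 < L) {l' : ℝ}
    (hl' : 0 < l') (h1' : l' ≤ ka d L / 2) (h2' : 2 * C * l' ≤ ka d L) (h3' : ka d L ≤ 2) :
    QT l' (fun w => Cut F w = ∅ ∧ 6 * d * (w.length : ℝ) ≤ (su F w : ℝ) ∧
      ((∑ q ∈ (V F w).filter (fun q => L ≤ sz F w q), sz F w q : ℕ) : ℝ) ≤
        d * (w.length : ℝ)) := by
  classical
  have hLR : (0 : ℝ) < L := by exact_mod_cast hL
  obtain ⟨x, hx⟩ : ∃ x : ℝ, x = 1 / (1000 * (L : ℝ) ^ 2) := ⟨_, rfl⟩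
  have hxpos : 0 < x := by rw [hx]; positivity
  obtain ⟨κ, hκ⟩ : ∃ κ : ℝ, κ = ka d L := ⟨_, rfl⟩
  have hκ' : κ = 5 * d / L * Real.log (1 + x) := by rw [hκ, hx]; rfl
  have hlog : 0 < Real.log (1 + x) := Real.log_pos (by linarith)
  have hκpos : 0 < κ := by rw [hκ']; positivity
  rw [← hκ] at h1' h2' h3'
  have hCs' := hCs (κ / 2) (by positivity) (by linarith)
  rw [QT_iff]
  intro n
  set G : Finset Wo := (Cs n).filter (fun w => Cut F w = ∅ ∧
    6 * d * (w.length : ℝ) ≤ (su F w : ℝ) ∧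
      ((∑ q ∈ (V F w).filter (fun q => L ≤ sz F w q), sz F w q : ℕ) : ℝ) ≤
        d * (w.length : ℝ)) with hG
  have hGs : G ⊆ (Cs n).filter (fun w => Cut F w = ∅) := by
    intro w hw
    rw [hG, mem_filter] at hw
    rw [mem_filter]
    exact ⟨hw.1, hw.2.1⟩
  have hterm : ∀ w ∈ G, Real.exp (κ * n) ≤
      (1 + x) ^ ((V F w).filter (fun q => sz F w q < L)).card := by
    intro w hw
    rw [hG, mem_filter] at hw
    obtain ⟨hw, h1, h2, h3⟩ := hw
    rw [Cs_length hw] at h2 h3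
    have h4 : (su F w : ℝ) ≤ ((∑ q ∈ V F w, sz F w q : ℕ) : ℝ) := by
      have := hCOV F w h1
      exact_mod_cast this
    have h5 : ∑ q ∈ V F w, sz F w q =
        ∑ q ∈ (V F w).filter (fun q => L ≤ sz F w q), sz F w q +
          ∑ q ∈ (V F w).filter (fun q => sz F w q < L), sz F w q := by
      rw [← Finset.sum_filter_add_sum_filter_not (V F w) (fun q => L ≤ sz F w q)]
      congr 1
      apply Finset.sum_congr _ (fun _ _ => rfl)
      apply filter_congr
      intro q _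
      exact not_le
    have h6 : ∑ q ∈ (V F w).filter (fun q => sz F w q < L), sz F w q ≤
        ((V F w).filter (fun q => sz F w q < L)).card * L := by
      rw [← smul_eq_mul]
      apply Finset.sum_le_card_nsmul
      intro q hq
      exact (mem_filter.1 hq).2.le
    have h7 : ((∑ q ∈ V F w, sz F w q : ℕ) : ℝ) ≤
        ((∑ q ∈ (V F w).filter (fun q => L ≤ sz F w q), sz F w q : ℕ) : ℝ) +
          (((V F w).filter (fun q => sz F w q < L)).card : ℝ) * L := by
      rw [h5]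
      push_cast
      have h8 : ((∑ q ∈ (V F w).filter (fun q => sz F w q < L), sz F w q : ℕ) : ℝ) ≤
          ((((V F w).filter (fun q => sz F w q < L)).card * L : ℕ) : ℝ) := by exact_mod_cast h6
      push_cast at h8
      linarith
    have h9 : 5 * d * n ≤ (((V F w).filter (fun q => sz F w q < L)).card : ℝ) * L := by
      nlinarith
    have h10 : 5 * d / L * n ≤ (((V F w).filter (fun q => sz F w q < L)).card : ℝ) := by
      rw [div_mul_eq_mul_div, div_le_iff₀ hLR]
      exact h9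
    calc Real.exp (κ * n) ≤
        Real.exp ((((V F w).filter (fun q => sz F w q < L)).card : ℝ) * Real.log (1 + x)) := by
          apply Real.exp_le_exp.2
          rw [hκ']
          calc 5 * d / L * Real.log (1 + x) * n = 5 * d / L * n * Real.log (1 + x) := by ring
            _ ≤ _ := mul_le_mul_of_nonneg_right h10 hlog.le
      _ = _ := by
          rw [Real.exp_nat_mul, Real.exp_log (by linarith)]
  have hsum : (G.card : ℝ) * Real.exp (κ * n) ≤ ((Cs n).card : ℝ) := by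
    calc (G.card : ℝ) * Real.exp (κ * n) = ∑ w ∈ G, Real.exp (κ * n) := by
          rw [Finset.sum_const, nsmul_eq_mul]
      _ ≤ ∑ w ∈ G, (1 + x) ^ ((V F w).filter (fun q => sz F w q < L)).card :=
          Finset.sum_le_sum hterm
      _ ≤ ∑ w ∈ (Cs n).filter (fun w => Cut F w = ∅),
            (1 + x) ^ ((V F w).filter (fun q => sz F w q < L)).card := by
          apply Finset.sum_le_sum_of_subset_of_nonneg hGs
          intro w _ _
          positivity
      _ ≤ _ := by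
          rw [hx]
          exact hSML F n L hL
  have h11 : (G.card : ℝ) * Real.exp (κ * n) ≤
      Real.exp (C / (κ / 2)) * Real.exp ((Lm + κ / 2) * n) := hsum.trans (hCs' n)
  have h12 : (G.card : ℝ) ≤
      Real.exp (C / (κ / 2)) * Real.exp ((Lm + κ / 2) * n) / Real.exp (κ * n) := by
    rw [le_div_iff₀ (Real.exp_pos _)]
    exact h11
  have h13 : Real.exp (C / (κ / 2)) * Real.exp ((Lm + κ / 2) * n) / Real.exp (κ * n) =
      Real.exp (C / (κ / 2)) * Real.exp ((Lm - κ / 2) * n) := by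
    rw [mul_div_assoc, ← Real.exp_sub]
    congr 2
    ring
  rw [h13] at h12
  refine h12.trans ?_
  have h14 : C / (κ / 2) ≤ 1 / l' := by
    rw [div_le_div_iff₀ (by positivity) hl']
    linarith
  have h15 : (Lm - κ / 2) * n ≤ (Lm - l') * n := by
    apply mul_le_mul_of_nonneg_right _ (Nat.cast_nonneg n)
    linarith
  exact mul_le_mul (Real.exp_le_exp.2 h14) (Real.exp_le_exp.2 h15) (Real.exp_pos _).le
    (Real.exp_pos _).le

lemma ka_bounds {d l : ℝ} (hd : 0 < d) (hd1 : d ≤ 1 / 2) (hl : 0 < l) {L : ℕ} (hL : 0 < L)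
    (hL1 : (L : ℝ) ≤ 257 / l ^ 2) :
    d * l ^ 6 / (400 * 257 ^ 3) ≤ ka d L ∧ ka d L ≤ 2 := by
  have hLR : (1 : ℝ) ≤ L := by exact_mod_cast hL
  have hL0 : (0 : ℝ) < L := by linarith
  obtain ⟨x, hx⟩ : ∃ x : ℝ, x = 1 / (1000 * (L : ℝ) ^ 2) := ⟨_, rfl⟩
  have hxpos : 0 < x := by rw [hx]; positivity
  have hx1 : x ≤ 1 / 1000 := by
    rw [hx]
    refine one_div_le_one_div_of_le (by norm_num) ?_
    nlinarith
  have hlog1 : x / 2 ≤ Real.log (1 + x) := by
    have h1 := Real.one_sub_inv_le_log_of_pos (show 0 < 1 + x by linarith)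
    refine le_trans ?_ h1
    have h2 : 1 - (1 + x)⁻¹ = x / (1 + x) := by
      field_simp
      ring
    rw [h2]
    exact div_le_div_of_nonneg_left hxpos.le (by linarith) (by linarith)
  have hlog2 : Real.log (1 + x) ≤ x := by
    have h1 := Real.log_le_sub_one_of_pos (show 0 < 1 + x by linarith)
    linarith
  have hka : ka d L = 5 * d / L * Real.log (1 + x) := by rw [hx]; rfl
  rw [hka]
  constructor
  · calc d * l ^ 6 / (400 * 257 ^ 3) ≤ d / (400 * (L : ℝ) ^ 3) := by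
          rw [div_le_div_iff₀ (by positivity) (by positivity)]
          have h1 : (L : ℝ) * l ^ 2 ≤ 257 := by
            rwa [le_div_iff₀ (by positivity)] at hL1
          have h2 : ((L : ℝ) * l ^ 2) ^ 3 ≤ 257 ^ 3 :=
            pow_le_pow_left₀ (by positivity) h1 3
          have h3 : d * l ^ 6 * (400 * (L : ℝ) ^ 3) = d * 400 * ((L : ℝ) * l ^ 2) ^ 3 := by ring
          have h4 : d * (400 * 257 ^ 3) = d * 400 * (257 : ℝ) ^ 3 := by ring
          rw [h3, h4]
          exact mul_le_mul_of_nonneg_left h2 (by positivity)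
      _ = 5 * d / L * (x / 2) := by
          rw [hx]
          field_simp
          norm_num
      _ ≤ _ := mul_le_mul_of_nonneg_left hlog1 (by positivity)
  · have h1 : 5 * d / L ≤ 5 / 2 := by
      rw [div_le_iff₀ hL0]
      nlinarith
    calc 5 * d / L * Real.log (1 + x) ≤ 5 / 2 * x :=
          mul_le_mul h1 hlog2 (Real.log_nonneg (by linarith)) (by norm_num)
      _ ≤ 2 := by linarith

end NCTx

open NCTx in
theorem t_NCT (hMAP : MAP_Stmt) (hCSU : CSU_Stmt) (hCOV : COV_Stmt) (hENT : ENT_Stmt)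
    (hLRG : LRG_Stmt) (hSML : SML_Stmt) : NCT_Stmt := by
  classical
  obtain ⟨C, hC, hCs⟩ := hCSU
  obtain ⟨K, hK6, hK1, hK⟩ := pow_absorb (2 * (C + 1) * (400 * 257 ^ 3)) 6
  refine ⟨K + 1, fun F v₁ v₀ d l hv₁ hlt hv₀ hd hd1 hl hl1 hU hUT => ?_⟩
  have hx : 0 < l * d := mul_pos hl hd
  have hx1 : l * d ≤ 1 / 4 := by nlinarith
  obtain ⟨m, hm⟩ : ∃ m : ℝ, m = (l * d) ^ K := ⟨_, rfl⟩
  have hm0 : 0 < m := by rw [hm]; positivity
  obtain ⟨L, hLd⟩ : ∃ L : ℕ, L = ⌈256 / l ^ 2⌉₊ := ⟨_, rfl⟩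
  have hLge : 256 / l ^ 2 ≤ (L : ℝ) := by rw [hLd]; exact Nat.le_ceil _
  have hl2 : 0 < l ^ 2 := by positivity
  have hl21 : l ^ 2 ≤ 1 := by nlinarith
  have hL0 : 0 < L := by
    have h1 : (0 : ℝ) < 256 / l ^ 2 := by positivity
    have h2 : (0 : ℝ) < L := lt_of_lt_of_le h1 hLge
    exact_mod_cast h2
  have hLle : (L : ℝ) ≤ 257 / l ^ 2 := by
    have h1 : (L : ℝ) < 256 / l ^ 2 + 1 := by
      rw [hLd]
      exact Nat.ceil_lt_add_one (by positivity)
    have h2 : (1 : ℝ) ≤ 1 / l ^ 2 := by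
      rw [le_div_iff₀ hl2]
      linarith
    have h3 : 257 / l ^ 2 = 256 / l ^ 2 + 1 / l ^ 2 := by
      rw [← add_div]
      norm_num
    linarith
  obtain ⟨hk1, hk2⟩ := ka_bounds hd hd1 hl hL0 hLle
  -- the level
  have hmk : 2 * (C + 1) * m ≤ ka d L := by
    have h1 := hK (l * d) hx (by linarith)
    rw [← hm] at h1
    have h2 : (l * d) ^ 6 ≤ d * l ^ 6 := by
      have h3 : d ^ 5 ≤ 1 := pow_le_one₀ hd.le (by linarith)
      have h4 : (l * d) ^ 6 = d * l ^ 6 * d ^ 5 := by ring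
      rw [h4]
      exact mul_le_of_le_one_right (by positivity) h3
    have h3 : 2 * (C + 1) * m * (400 * 257 ^ 3) ≤ d * l ^ 6 := by
      calc 2 * (C + 1) * m * (400 * 257 ^ 3) = 2 * (C + 1) * (400 * 257 ^ 3) * m := by ring
        _ ≤ (l * d) ^ 6 := h1
        _ ≤ _ := h2
    have h4 : 2 * (C + 1) * m ≤ d * l ^ 6 / (400 * 257 ^ 3) := by
      rw [le_div_iff₀ (by positivity)]
      exact h3
    exact h4.trans hk1
  have hml : m ≤ l / 2 := by
    have h1 : m ≤ (l * d) ^ 2 := by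
      rw [hm]
      exact pow_le_pow_of_le_one hx.le (by linarith) (by omega)
    have h2 : (l * d) ^ 2 ≤ l / 2 := by
      have h3 : (l * d) ^ 2 = l * (l * d * d) := by ring
      rw [h3]
      have h4 : l * d * d ≤ 1 / 2 := by nlinarith
      calc l * (l * d * d) ≤ l * (1 / 2) := mul_le_mul_of_nonneg_left h4 hl.le
        _ = l / 2 := by ring
    exact h1.trans h2
  have hm1 : m ≤ 1 := by linarith
  have hA : QT m (fun w => v₁ * (w.length : ℝ) ≤ (st F w : ℝ)) :=
    QT_anti hm0 (by linarith) (QT_st hMAP F v₁ l hU)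
  have hB : QT m (fun w => (v₀ - 2 * d) * (w.length : ℝ) ≤ ((su F w + st F w : ℤ) : ℝ) ∧
      d * (w.length : ℝ) ≤
        ((∑ q ∈ (V F w).filter (fun q => L ≤ sz F w q), sz F w q : ℕ) : ℝ)) :=
    QT_anti hm0 hml (QT_large hENT hLRG F (v₀ - 2 * d) d l hl hl1 (by
      have e : v₀ - 2 * d + 2 * d = v₀ := by ring
      rw [e]
      exact hUT) L hL0 hLge)
  have hCC := QT_small hC hCs hCOV hSML F d hd L hL0 hm0 (by nlinarith) (by nlinarith) hk2
  have hAB := QT_or hm0 hm1 hA hB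
  have hABC := QT_or (half_pos hm0) (by linarith) hAB
    (QT_anti (half_pos hm0) (by linarith) hCC)
  have hlev : (l * d) ^ (K + 1) ≤ m / 2 / 2 := by
    rw [pow_succ, ← hm]
    nlinarith
  refine QT_anti (pow_pos hx _) hlev (QT_mono ?_ hABC)
  rintro w ⟨h1, h2⟩
  by_cases hA' : v₁ * (w.length : ℝ) ≤ (st F w : ℝ)
  · exact Or.inl (Or.inl hA')
  by_cases hB' : d * (w.length : ℝ) ≤
      ((∑ q ∈ (V F w).filter (fun q => L ≤ sz F w q), sz F w q : ℕ) : ℝ)
  · exact Or.inl (Or.inr ⟨h2, hB'⟩)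
  refine Or.inr ⟨h1, ?_, (not_le.1 hB').le⟩
  rw [not_le] at hA'
  push_cast at h2
  have hw : (0 : ℝ) ≤ (w.length : ℝ) := Nat.cast_nonneg _
  nlinarith

end Pool.Agent.QSB
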