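import Pool.Agent.QSB.Stmts
import Pool.Agent.SUBB.POL

/-!
# QSB, module POL: polygons with large span are rare, explicit window
-/

set_option autoImplicit false

namespace Pool.Agent.QSB

open Finset Filter Topology
open Pool.Agent.Lib27 Pool.Agent.SUBB

namespace POLx

/-- the number of steps -/
lemma lev (A : ℕ) (hA : 2 ≤ A) (v : ℝ) (hv : 0 < v) (hv1 : v ≤ 1) :
    ∃ m : ℕ, 2 * (2 / 3 : ℝ) ^ m ≤ v / 2 ∧
      (A : ℝ) ^ (m + 1) ≤ (A : ℝ) ^ 2 * (4 / v) ^ (Real.log A / Real.log (3 / 2)) := by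
  have hA1 : (1 : ℝ) < A := by
    have : (2 : ℝ) ≤ A := by exact_mod_cast hA
    linarith
  have hA0 : (0 : ℝ) < A := by linarith
  have h32 : 0 < Real.log (3 / 2) := Real.log_pos (by norm_num)
  have h4v : 0 < 4 / v := by positivity
  have h4 : 1 ≤ 4 / v := by
    rw [le_div_iff₀ hv]
    linarith
  set t : ℝ := Real.log (4 / v) / Real.log (3 / 2) with ht
  have ht0 : 0 ≤ t := div_nonneg (Real.log_nonneg h4) h32.le
  refine ⟨⌈t⌉₊, ?_, ?_⟩
  · have h1 : 4 / v ≤ (3 / 2 : ℝ) ^ ⌈t⌉₊ := by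
      rw [← Real.rpow_natCast]
      have h2 : (3 / 2 : ℝ) ^ t = 4 / v := by
        rw [Real.rpow_def_of_pos (by norm_num), ht, mul_div_cancel₀ _ h32.ne', Real.exp_log h4v]
      rw [← h2]
      exact Real.rpow_le_rpow_of_exponent_le (by norm_num) (Nat.le_ceil t)
    have h3 : (2 / 3 : ℝ) ^ ⌈t⌉₊ * (3 / 2 : ℝ) ^ ⌈t⌉₊ = 1 := by
      rw [← mul_pow]
      norm_num
    have h5 : 0 < (2 / 3 : ℝ) ^ ⌈t⌉₊ := by positivity
    have h6 : (2 / 3 : ℝ) ^ ⌈t⌉₊ * (4 / v) ≤ 1 := by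
      rw [← h3]
      exact mul_le_mul_of_nonneg_left h1 h5.le
    rw [mul_div_assoc', div_le_iff₀ hv] at h6
    linarith
  · have h1 : ((⌈t⌉₊ : ℕ) : ℝ) + 1 ≤ 2 + t := by
      have := Nat.ceil_lt_add_one ht0
      linarith
    have h2 : (A : ℝ) ^ (⌈t⌉₊ + 1) ≤ (A : ℝ) ^ (2 + t) := by
      rw [← Real.rpow_natCast]
      refine Real.rpow_le_rpow_of_exponent_le hA1.le ?_
      push_cast
      exact h1
    refine h2.trans (le_of_eq ?_)
    rw [Real.rpow_add hA0]
    congr 1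
    · exact_mod_cast Real.rpow_natCast (A : ℝ) 2
    · rw [Real.rpow_def_of_pos hA0, Real.rpow_def_of_pos h4v, ht]
      congr 1
      ring

/-- the level is at least a small power of `n` -/
lemma level (A : ℕ) (hA : 2 ≤ A) (c : ℝ) (hc : 0 < c) : ∀ᶠ n : ℕ in atTop,
    ∃ m : ℕ, 2 * (2 / 3 : ℝ) ^ m ≤
      Real.log n ^ (-(Real.log (3 / 2) / (2 * Real.log A))) / 2 ∧
      (n : ℝ) ^ (-c) ≤ (1 / 2 : ℝ) ^ (A ^ (m + 1)) := by
  have hA1 : (1 : ℝ) < A := by
    have : (2 : ℝ) ≤ A := by exact_mod_cast hA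
    linarith
  have hlA : 0 < Real.log A := Real.log_pos hA1
  have h32 : 0 < Real.log (3 / 2) := Real.log_pos (by norm_num)
  set β : ℝ := Real.log A / Real.log (3 / 2) with hβ
  have hβ0 : 0 < β := div_pos hlA h32
  set a : ℝ := Real.log (3 / 2) / (2 * Real.log A) with ha
  have ha0 : 0 < a := by positivity
  have hab : a * β = 1 / 2 := by
    rw [ha, hβ]
    field_simp
  have hlog : Tendsto (fun n : ℕ => Real.log n) atTop atTop :=
    Real.tendsto_log_atTop.comp tendsto_natCast_atTop_atTop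
  have hs : Tendsto (fun n : ℕ => Real.sqrt (Real.log n)) atTop atTop :=
    Real.tendsto_sqrt_atTop.comp hlog
  filter_upwards [hlog.eventually_ge_atTop 1, eventually_ge_atTop 2,
    hs.eventually_ge_atTop (Real.log 2 * ((A : ℝ) ^ 2 * 4 ^ β) / c)] with n h1 h2 h3
  have hn : (0 : ℝ) < n := by
    have : (2 : ℝ) ≤ n := by exact_mod_cast h2
    linarith
  have hL : 0 < Real.log n := by linarith
  have hv : 0 < Real.log n ^ (-a) := Real.rpow_pos_of_pos hL _
  have hv1 : Real.log n ^ (-a) ≤ 1 := Real.rpow_le_one_of_one_le_of_nonpos h1 (by linarith)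
  obtain ⟨m, hm1, hm2⟩ := lev A hA _ hv hv1
  refine ⟨m, hm1, ?_⟩
  have h4 : (4 / Real.log n ^ (-a)) ^ β = 4 ^ β * Real.sqrt (Real.log n) := by
    rw [Real.rpow_neg hL.le, div_inv_eq_mul, Real.mul_rpow (by norm_num)
      (Real.rpow_nonneg hL.le _), ← Real.rpow_mul hL.le, hab, Real.sqrt_eq_rpow]
  rw [← hβ, h4] at hm2
  have h5 : (1 / 2 : ℝ) ^ (A ^ (m + 1)) = Real.exp (-(Real.log 2 * (A : ℝ) ^ (m + 1))) := by
    have h6 : (1 / 2 : ℝ) = Real.exp (-Real.log 2) := by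
      rw [Real.exp_neg, Real.exp_log (by norm_num)]
      norm_num
    rw [h6, ← Real.exp_nat_mul]
    congr 1
    push_cast
    ring
  rw [h5, Real.rpow_def_of_pos hn]
  apply Real.exp_le_exp.2
  have hl2 : 0 < Real.log 2 := Real.log_pos (by norm_num)
  rw [div_le_iff₀ hc] at h3
  have h7 : Real.sqrt (Real.log n) * Real.sqrt (Real.log n) = Real.log n :=
    Real.mul_self_sqrt hL.le
  have h8 : Real.log 2 * (A : ℝ) ^ (m + 1) ≤
      Real.log 2 * ((A : ℝ) ^ 2 * (4 ^ β * Real.sqrt (Real.log n))) :=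
    mul_le_mul_of_nonneg_left hm2 hl2.le
  have h9 : Real.log 2 * ((A : ℝ) ^ 2 * (4 ^ β * Real.sqrt (Real.log n))) ≤ c * Real.log n := by
    calc Real.log 2 * ((A : ℝ) ^ 2 * (4 ^ β * Real.sqrt (Real.log n)))
        = (Real.log 2 * ((A : ℝ) ^ 2 * 4 ^ β)) * Real.sqrt (Real.log n) := by ring
      _ ≤ (Real.sqrt (Real.log n) * c) * Real.sqrt (Real.log n) :=
          mul_le_mul_of_nonneg_right h3 (Real.sqrt_nonneg _)
      _ = c * (Real.sqrt (Real.log n) * Real.sqrt (Real.log n)) := by ring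
      _ = _ := by rw [h7]
  linarith

/-- powers -/
lemma pow_ev (K p q : ℝ) (h : p < q) : ∀ᶠ n : ℕ in atTop, K * (n : ℝ) ^ p ≤ (n : ℝ) ^ q := by
  have h1 : Tendsto (fun n : ℕ => (n : ℝ) ^ (q - p)) atTop atTop :=
    (tendsto_rpow_atTop (by linarith)).comp tendsto_natCast_atTop_atTop
  filter_upwards [h1.eventually_ge_atTop K, eventually_ge_atTop 1] with n h2 h3
  have hn : (0 : ℝ) < n := by exact_mod_cast h3
  calc K * (n : ℝ) ^ p ≤ (n : ℝ) ^ (q - p) * (n : ℝ) ^ p :=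
        mul_le_mul_of_nonneg_right h2 (Real.rpow_nonneg hn.le _)
    _ = (n : ℝ) ^ q := by
        rw [← Real.rpow_add hn]
        congr 1
        ring

/-- the polynomial factor -/
lemma poly_ev : ∀ᶠ n : ℕ in atTop, 2 * (2 * (n : ℝ) + 1) ^ 2 ≤ Real.exp (Real.sqrt n) := by
  have h1 : Tendsto (fun n : ℕ => Real.sqrt n) atTop atTop :=
    Real.tendsto_sqrt_atTop.comp tendsto_natCast_atTop_atTop
  filter_upwards [h1.eventually_ge_atTop 2160, eventually_ge_atTop 1] with n h2 h3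
  have hn : (1 : ℝ) ≤ n := by exact_mod_cast h3
  have h4 := Real.pow_div_factorial_le_exp (Real.sqrt n) (Real.sqrt_nonneg _) 5
  refine le_trans ?_ h4
  have h5 : Real.sqrt n ^ 5 = (n : ℝ) ^ 2 * Real.sqrt n := by
    have h6 : Real.sqrt n ^ 2 = n := Real.sq_sqrt (by linarith)
    calc Real.sqrt n ^ 5 = (Real.sqrt n ^ 2) ^ 2 * Real.sqrt n := by ring
      _ = _ := by rw [h6]
  have h7 : ((5 : ℕ).factorial : ℝ) = 120 := by norm_num [Nat.factorial]
  rw [h5, h7, le_div_iff₀ (by norm_num)]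
  have h8 : (2 * (n : ℝ) + 1) ^ 2 ≤ 9 * (n : ℝ) ^ 2 := by nlinarith
  have h9 : (n : ℝ) ^ 2 * 2160 ≤ (n : ℝ) ^ 2 * Real.sqrt n :=
    mul_le_mul_of_nonneg_left h2 (by positivity)
  linarith

end POLx

open POLx in
theorem t_POL (hS : SBW_Stmt) (hU : CSU_Stmt) (hM : MAP_Stmt) : POL_Stmt := by
  classical
  obtain ⟨A, hA, hT⟩ := hS
  obtain ⟨C₀, hC₀, hU⟩ := hU
  obtain ⟨C₂, hC₂, hW⟩ := W_rate_lower
  have hA1 : (1 : ℝ) < A := by
    have : (2 : ℝ) ≤ A := by exact_mod_cast hA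
    linarith
  have hlA : 0 < Real.log A := Real.log_pos hA1
  have h32 : 0 < Real.log (3 / 2) := Real.log_pos (by norm_num)
  refine ⟨Real.log (3 / 2) / (2 * Real.log A), by positivity, fun c hc => ?_⟩
  set a : ℝ := Real.log (3 / 2) / (2 * Real.log A) with ha
  set e : ℝ := min c 1 / 8 with he
  have he0 : 0 < e := by
    rw [he]
    have : 0 < min c 1 := lt_min hc one_pos
    positivity
  have hec : e < c := by
    have h1 : min c 1 ≤ c := min_le_left _ _
    have h2 : 0 < min c 1 := lt_min hc one_pos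
    rw [he]
    linarith
  have he1 : e ≤ 1 / 8 := by
    have h1 : min c 1 ≤ 1 := min_le_right _ _
    rw [he]
    linarith
  have hlog : Tendsto (fun n : ℕ => Real.log n) atTop atTop :=
    Real.tendsto_log_atTop.comp tendsto_natCast_atTop_atTop
  have hall := (level A hA e he0).and ((poly_ev).and
    ((pow_ev 8 (1 - c) (1 - e) (by linarith)).and
    ((pow_ev (8 * (1 + C₂)) (1 / 2) (1 - e) (by linarith)).and
    ((pow_ev (8 * (1 + 4 * C₀)) e (1 - e) (by linarith)).and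
    ((hlog.eventually_ge_atTop 1).and (eventually_ge_atTop 1))))))
  obtain ⟨N, hN⟩ := eventually_atTop.1 hall
  refine ⟨N, fun n hn h hh => ?_⟩
  obtain ⟨⟨m, hm1, hm2⟩, h2, h3, h4, h5, h6, h7⟩ := hN n hn
  have hn1 : (1 : ℝ) ≤ n := by exact_mod_cast h7
  have hn0 : (0 : ℝ) < n := by linarith
  have hL : 0 < Real.log n := by linarith
  set v : ℝ := Real.log n ^ (-a) with hv
  have hv0 : 0 < v := Real.rpow_pos_of_pos hL _
  set l : ℝ := (1 / 2 : ℝ) ^ (A ^ (m + 1)) with hl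
  have hl0 : 0 < l := by positivity
  have hl1 : l ≤ 1 := pow_le_one₀ (by norm_num) (by norm_num)
  have hvh : v * n ≤ h := by
    refine le_trans (le_of_eq ?_) hh
    rw [hv, Real.rpow_neg hL.le, div_eq_mul_inv, mul_comm]
  -- the two bounds
  have hT' : ∀ n : ℕ, (((Cs n).filter (fun w => v / 2 * (w.length : ℝ) ≤
      (SUBB.POL.lv w : ℝ))).card : ℝ) ≤ Real.exp (1 / l) * Real.exp ((Lm - l) * n) := by
    have h8 : QT l (fun w => v / 2 * (w.length : ℝ) ≤ (SUBB.POL.lv w : ℝ)) := by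
      refine QT_mono ?_ (hT m)
      intro w hw
      refine le_trans ?_ hw
      exact mul_le_mul_of_nonneg_right hm1 (Nat.cast_nonneg _)
    exact (QT_iff l _).1 h8
  have hU' : ∀ n : ℕ, ((Cs n).card : ℝ) ≤ Real.exp (C₀ / (l / 4)) *
      Real.exp ((Lm + l / 4) * n) := fun n => hU (l / 4) (by positivity) (by linarith) n
  have key := SUBB.POL.cover n h7 v hv0
  have h9 : ∀ k ∈ range (2 * n + 1),
      ((SUBB.POL.Pm (v * n) k).card : ℝ) * (SUBB.POL.Pm (v * n) (2 * n - k)).card ≤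
      2 * Real.exp (1 / l) * Real.exp (C₀ / (l / 4)) *
        Real.exp (2 * n * Lm - l * n + l / 4 * n) := by
    intro k hk
    rw [mem_range] at hk
    rcases le_total n k with h | h
    · exact SUBB.POL.two_arcs hM v l _ _ (l / 4) hv0 hl0 (by positivity) (Real.exp_pos _)
        hT' hU' n k (by omega) h
    · rw [mul_comm]
      have h10 := SUBB.POL.two_arcs hM v l _ _ (l / 4) hv0 hl0 (by positivity) (Real.exp_pos _)
        hT' hU' n (2 * n - k) (by omega) (by omega)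
      have h11 : 2 * n - (2 * n - k) = k := by omega
      rwa [h11] at h10
  have h12 : (((AreaLaw.SAP n).filter (fun s => h ≤ AreaLaw.span n s)).card : ℝ) ≤
      (((AreaLaw.SAP n).filter (fun s => v * n ≤ (AreaLaw.span n s : ℝ))).card : ℝ) := by
    norm_cast
    refine card_le_card fun s hs => ?_
    rw [mem_filter] at hs ⊢
    refine ⟨hs.1, hvh.trans ?_⟩
    exact_mod_cast hs.2
  have h13 : (((AreaLaw.SAP n).filter (fun s => v * n ≤ (AreaLaw.span n s : ℝ))).card : ℝ) ≤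
      ∑ _a ∈ range (2 * n + 1), ∑ k ∈ range (2 * n + 1),
        2 * Real.exp (1 / l) * Real.exp (C₀ / (l / 4)) *
          Real.exp (2 * n * Lm - l * n + l / 4 * n) := by
    calc (((AreaLaw.SAP n).filter (fun s => v * n ≤ (AreaLaw.span n s : ℝ))).card : ℝ)
        ≤ ((∑ _a ∈ range (2 * n + 1), ∑ k ∈ range (2 * n + 1),
          (SUBB.POL.Pm (v * n) k).card * (SUBB.POL.Pm (v * n) (2 * n - k)).card : ℕ) : ℝ) := by
          exact_mod_cast key
      _ = ∑ _a ∈ range (2 * n + 1), ∑ k ∈ range (2 * n + 1),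
          ((SUBB.POL.Pm (v * n) k).card : ℝ) * (SUBB.POL.Pm (v * n) (2 * n - k)).card := by
          push_cast
          rfl
      _ ≤ _ := sum_le_sum fun a _ => sum_le_sum fun k hk => h9 k hk
  have h14 : ∑ _a ∈ range (2 * n + 1), ∑ k ∈ range (2 * n + 1),
        2 * Real.exp (1 / l) * Real.exp (C₀ / (l / 4)) *
          Real.exp (2 * n * Lm - l * n + l / 4 * n) =
      2 * (2 * (n : ℝ) + 1) ^ 2 * Real.exp (1 / l + C₀ / (l / 4) +
        (2 * n * Lm - l * n + l / 4 * n)) := by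
    have h24 : Real.exp (1 / l + C₀ / (l / 4) + (2 * n * Lm - l * n + l / 4 * n)) =
        Real.exp (1 / l) * Real.exp (C₀ / (l / 4)) *
          Real.exp (2 * n * Lm - l * n + l / 4 * n) := by
      rw [← Real.exp_add, ← Real.exp_add]
    rw [h24]
    simp only [sum_const, card_range, nsmul_eq_mul]
    push_cast
    ring
  have h15 : Real.exp (n * Lc - C₂ * Real.sqrt n) ≤ ((AreaLaw.SAP n).card : ℝ) := by
    rw [AreaLaw.card_SAP]
    have h16 : (0 : ℝ) < (W n).card := by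
      have := W_pos n h7
      exact_mod_cast this
    rw [← Real.exp_log h16]
    exact Real.exp_le_exp.2 (hW n h7)
  refine h12.trans (h13.trans ?_)
  rw [h14]
  have h17 : Real.exp (-((n : ℝ) ^ (1 - c))) * Real.exp (n * Lc - C₂ * Real.sqrt n) ≤
      Real.exp (-((n : ℝ) ^ (1 - c))) * ((AreaLaw.SAP n).card : ℝ) :=
    mul_le_mul_of_nonneg_left h15 (Real.exp_pos _).le
  refine le_trans ?_ h17
  rw [Lc_eq]
  refine (mul_le_mul_of_nonneg_right h2 (Real.exp_pos _).le).trans ?_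
  rw [← Real.exp_add, ← Real.exp_add]
  apply Real.exp_le_exp.2
  have hs : (n : ℝ) ^ (1 / 2 : ℝ) = Real.sqrt n := (Real.sqrt_eq_rpow _).symm
  rw [hs] at h4
  have h18 : (n : ℝ) ^ (1 - e) = n * (n : ℝ) ^ (-e) := by
    rw [show (1 : ℝ) - e = 1 + (-e) by ring, Real.rpow_add hn0, Real.rpow_one]
  have h19 : (n : ℝ) ^ (1 - e) ≤ l * n := by
    rw [h18, mul_comm l]
    exact mul_le_mul_of_nonneg_left hm2 hn0.le
  have h20 : 1 / l ≤ (n : ℝ) ^ e := by
    rw [div_le_iff₀ hl0]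
    have h21 : (n : ℝ) ^ e * (n : ℝ) ^ (-e) = 1 := by
      rw [← Real.rpow_add hn0, add_neg_cancel, Real.rpow_zero]
    rw [← h21]
    exact mul_le_mul_of_nonneg_left hm2 (Real.rpow_nonneg hn0.le _)
  have h22 : C₀ / (l / 4) = 4 * C₀ * (1 / l) := by
    field_simp
  have h23 : 4 * C₀ * (1 / l) ≤ 4 * C₀ * (n : ℝ) ^ e :=
    mul_le_mul_of_nonneg_left h20 (by positivity)
  rw [h22]
  nlinarith

end Pool.Agent.QSB
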