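import Pool.Agent.QSB.Stmts
import Pool.Agent.SUBB.RBK

/-!
# Quantitative sub-ballisticity, module RBK: blocks with large displacement are rare
-/

set_option autoImplicit false

namespace Pool.Agent.QSB

open Finset Filter Topology
open Pool.Agent.Lib27 Pool.Agent.SUBB

namespace RBKx

lemma qt_iff (l : ℝ) (P : Wo → Prop) : QT l P ↔ ∀ n : ℕ,
    (RBK_N P n : ℝ) ≤ Real.exp (1 / l) * Real.exp ((Lm - l) * n) := Iff.rfl

lemma eight_le : (8 : ℝ) ≤ Real.exp 3 := by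
  have h1 : (2 : ℝ) ≤ Real.exp 1 := by
    have := Real.add_one_le_exp (1 : ℝ)
    linarith
  have h2 : Real.exp 3 = Real.exp 1 ^ 3 := by
    rw [← Real.exp_nat_mul]
    norm_num
  rw [h2]
  calc (8 : ℝ) = 2 ^ 3 := by norm_num
    _ ≤ Real.exp 1 ^ 3 := pow_le_pow_left₀ (by norm_num) h1 3

lemma four_pow_le (n : ℕ) : (4 : ℝ) ^ n ≤ Real.exp (2 * n) := by
  have h1 : (2 : ℝ) ≤ Real.exp 1 := by
    have := Real.add_one_le_exp (1 : ℝ)
    linarith
  have h2 : Real.exp (2 * n) = (Real.exp 1 ^ 2) ^ n := by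
    rw [← pow_mul, ← Real.exp_nat_mul]
    congr 1
    push_cast
    ring
  rw [h2]
  refine pow_le_pow_left₀ (by norm_num) ?_ n
  nlinarith

/-- the two steps -/
lemma step (hM : MAP_Stmt) (hB : BSY_Stmt) (F : Frame) (v v' : ℝ) (m : ℕ)
    (hm : v * (m : ℝ) ≤ v' * ((m : ℝ) + 1) - 2) :
    RBK_N (fun w => Blk F w ∧ v' * (w.length : ℝ) ≤ (su F w : ℝ) + |(st F w : ℝ)|) (m + 1) ≤
      8 * RBK_N (fun w => Cut F w = ∅ ∧ v * (w.length : ℝ) ≤ ((su F w + st F w : ℤ) : ℝ)) m := by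
  obtain ⟨P, hP⟩ : ∃ P : Wo → Prop, P = fun w => Blk F w ∧
      v' * (w.length : ℝ) ≤ (su F w : ℝ) + |(st F w : ℝ)| := ⟨_, rfl⟩
  obtain ⟨Q, hQ⟩ : ∃ Q : Wo → Prop, Q = fun w => Blk F w ∧
      v' * (w.length : ℝ) ≤ ((su F w + st F w : ℤ) : ℝ) := ⟨_, rfl⟩
  obtain ⟨R, hR⟩ : ∃ R : Wo → Prop, R = fun w => Cut F w = ∅ ∧
      v * (w.length : ℝ) ≤ ((su F w + st F w : ℤ) : ℝ) := ⟨_, rfl⟩
  rw [← hR, ← hP]
  have s1 : ∀ n, RBK_N P n ≤ 2 * RBK_N Q n := by
    intro n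
    refine RBK_inj P Q n n Bool (fun x => if x.1 then x.2.map F.fT else x.2) ?_
    intro w hw hw'
    rw [hP] at hw'
    obtain ⟨h1, h2⟩ := hw'
    rcases le_total 0 (st F w) with h | h
    · refine ⟨false, w, hw, ?_, by simp⟩
      rw [hQ]
      refine ⟨h1, ?_⟩
      have h3 : (0 : ℝ) ≤ (st F w : ℝ) := by exact_mod_cast h
      rw [abs_of_nonneg h3] at h2
      push_cast
      exact h2
    · refine ⟨true, w.map F.fT, ((hM F n w).1).2 hw, ?_, RBK_map_map F w⟩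
      rw [hQ]
      refine ⟨((hB F).1 w).2 h1, ?_⟩
      have h3 : (st F w : ℝ) ≤ 0 := by exact_mod_cast h
      rw [abs_of_nonpos h3] at h2
      rw [RBK_su, RBK_st, List.length_map]
      push_cast
      exact h2
  have s2 : RBK_N Q (m + 1) ≤ 4 * RBK_N R m := by
    have h0 := RBK_inj Q R m (m + 1) (Fin 4) (fun x => x.1 :: x.2) ?_
    · rwa [Fintype.card_fin] at h0
    intro w hw hw'
    rw [hQ] at hw'
    obtain ⟨h1, h2⟩ := hw'
    have hlen := Cs_length hw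
    rcases w with _ | ⟨e, p⟩
    · simp at hlen
    have hlen' : p.length = m := by
      rw [List.length_cons] at hlen
      omega
    have hp : p ∈ Cs m := by
      have := Cs_drop hw 1
      simpa using this
    refine ⟨e, p, hp, ?_, rfl⟩
    rw [hR]
    refine ⟨RBK_cut F e p h1.1, ?_⟩
    rw [hlen, su_cons, st_cons] at h2
    rw [hlen']
    have h3 : (F.U e : ℝ) ≤ 1 := by exact_mod_cast (abs_le.1 (F.absU e)).2
    have h4 : (F.T e : ℝ) ≤ 1 := by exact_mod_cast (abs_le.1 (F.absT e)).2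
    push_cast at h2 ⊢
    linarith
  have h1 := s1 (m + 1)
  omega

end RBKx

open RBKx in
/-- Module RBK. -/
theorem t_RBK (hM : MAP_Stmt) (hB : BSY_Stmt) : RBK_Stmt := by
  refine ⟨4, ?_⟩
  intro F v d l hv hv3 hd hd1 hl hl1 hthin
  rw [qt_iff] at hthin ⊢
  have hL := Lm_nonneg
  set l' : ℝ := (l * d) ^ 4 with hl'
  have hld : 0 < l * d := mul_pos hl hd
  have hld1 : l * d ≤ 1 / 4 := by nlinarith
  have hl'0 : 0 < l' := pow_pos hld 4
  have hl'1 : l' ≤ l * d / 64 := by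
    have h1 : (l * d) ^ 3 ≤ (1 / 4) ^ 3 := pow_le_pow_left₀ hld.le hld1 3
    calc l' = (l * d) ^ 3 * (l * d) := by rw [hl']; ring
      _ ≤ (1 / 4) ^ 3 * (l * d) := mul_le_mul_of_nonneg_right h1 hld.le
      _ = l * d / 64 := by ring
  have hl'l : l' ≤ l / 128 := by nlinarith
  have hl'd : l' ≤ d / 128 := by nlinarith
  intro n
  rw [← Real.exp_add]
  by_cases hn : (n : ℝ) ≤ 2 / d + 2
  · have h1 : (RBK_N (fun w => Blk F w ∧ (v + d) * (w.length : ℝ) ≤
        (su F w : ℝ) + |(st F w : ℝ)|) n : ℝ) ≤ (4 : ℝ) ^ n := by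
      have h2 := (RBK_le (fun w => Blk F w ∧ (v + d) * (w.length : ℝ) ≤
        (su F w : ℝ) + |(st F w : ℝ)|) n).trans (Cs_le n)
      exact_mod_cast h2
    refine (h1.trans (four_pow_le n)).trans (Real.exp_le_exp.2 ?_)
    have h3 : (2 : ℝ) ≤ 1 / d := by rw [le_div_iff₀ hd]; linarith
    have h4 : (n : ℝ) ≤ 3 / d := by
      have : 3 / d = 2 / d + 1 / d := by ring
      linarith
    have h5 : 128 / d ≤ 1 / l' := by
      rw [div_le_div_iff₀ hd hl'0]
      linarith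
    have h6 : (0 : ℝ) ≤ n := Nat.cast_nonneg n
    have h7 : l' * (n : ℝ) ≤ n := by nlinarith
    have h8 : 0 ≤ Lm * (n : ℝ) := mul_nonneg hL h6
    have h9 : 3 * (n : ℝ) ≤ 1 / l' := by
      have e1 : 3 * (3 / d) = 9 * (1 / d) := by ring
      have e2 : 128 / d = 128 * (1 / d) := by ring
      have e3 : 0 < 1 / d := by positivity
      linarith
    have e : (Lm - l') * (n : ℝ) = Lm * n - l' * n := by ring
    rw [e]
    linarith
  · push Not at hn
    obtain ⟨m, rfl⟩ : ∃ m, n = m + 1 := by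
      refine ⟨n - 1, ?_⟩
      have : 0 < n := by
        have h2 : (0 : ℝ) < n := lt_trans (by positivity) hn
        exact_mod_cast h2
      omega
    have hm0 : (2 : ℝ) ≤ d * m := by
      push_cast at hn
      have h1 : 2 / d < m := by linarith
      rw [div_lt_iff₀ hd] at h1
      linarith
    have hm : v * (m : ℝ) ≤ (v + d) * ((m : ℝ) + 1) - 2 := by nlinarith
    have h1 := step hM hB F v (v + d) m hm
    have h2 : (RBK_N (fun w => Blk F w ∧ (v + d) * (w.length : ℝ) ≤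
        (su F w : ℝ) + |(st F w : ℝ)|) (m + 1) : ℝ) ≤ 8 * (RBK_N (fun w => Cut F w = ∅ ∧
          v * (w.length : ℝ) ≤ ((su F w + st F w : ℤ) : ℝ)) m : ℝ) := by
      exact_mod_cast h1
    have h3 := hthin m
    refine h2.trans ((mul_le_mul eight_le h3 (Nat.cast_nonneg _) (Real.exp_pos _).le).trans ?_)
    rw [← Real.exp_add, ← Real.exp_add]
    refine Real.exp_le_exp.2 ?_
    have h6 : (0 : ℝ) ≤ m := Nat.cast_nonneg m
    have h5 : 128 / l ≤ 1 / l' := by
      rw [div_le_div_iff₀ hl hl'0]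
      linarith
    have h7 : (2 : ℝ) ≤ 1 / l := by rw [le_div_iff₀ hl]; linarith
    have e2 : 128 / l = 128 * (1 / l) := by ring
    have h8 : l' * (m : ℝ) ≤ l * m := mul_le_mul_of_nonneg_right (by linarith) h6
    push_cast
    have e : (Lm - l') * ((m : ℝ) + 1) = Lm * m - l' * m + Lm - l' := by ring
    have e' : (Lm - l) * (m : ℝ) = Lm * m - l * m := by ring
    rw [e, e']
    linarith

end Pool.Agent.QSB
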