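import Pool.Agent.QSB.Stmts
import Pool.Agent.SUBB.REN2

/-!
# QSB, module REN2: the total weight of all words, with the explicit bound
-/

set_option autoImplicit false

namespace Pool.Agent.QSB

open Finset Filter Topology
open Pool.Agent.Lib27 Pool.Agent.SUBB

theorem t_REN2 : REN2_Stmt := by
  classical
  intro F s a b ρ B hρ hB hB'
  set K : ℝ := ∑ w ∈ Cs 1, om F s a b w with hK
  have hK0 : 0 ≤ K := sum_nonneg fun w _ => (om_pos F s a b w).le
  have key : ∀ N : ℕ, Gs (fun _ => True) (om F s a b) N ≤ B + B * ((1 + K * B) / (1 - ρ)) := by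
    intro N
    set E : Finset Wo := (ren2C N).filter (fun w => Cut F w = ∅) with hEd
    set D : Finset Wo := (ren2C N).filter (Blk F) with hD
    set H : Finset Wo := (ren2C N).filter (fun w => w = [] ∨ 0 ∈ Cut F w) with hH
    have hEB : ∑ w ∈ E, om F s a b w ≤ B := by
      rw [hEd, ← ren2_Gs]; exact hB' N
    have hDB : ∑ w ∈ D, om F s a b w ≤ ρ := by
      rw [hD, ← ren2_Gs]; exact hB N
    have hE0 : 0 ≤ ∑ w ∈ E, om F s a b w := sum_nonneg fun w _ => (om_pos F s a b w).le
    have hH0 : 0 ≤ ∑ w ∈ H, om F s a b w := sum_nonneg fun w _ => (om_pos F s a b w).le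
    have htd : ∀ w ∈ ren2C N, ∀ i, w.take i ∈ ren2C N ∧ w.drop i ∈ ren2C N := by
      intro w hw i
      rw [ren2_mem] at hw
      have h2 := hw.2
      rw [← List.take_append_drop i w] at h2
      obtain ⟨h3, h4⟩ := SAWs_append _ _ h2
      rw [ren2_mem, ren2_mem]
      refine ⟨⟨?_, h3⟩, ⟨?_, h4⟩⟩
      · rw [List.length_take]; omega
      · rw [List.length_drop]; omega
    -- splitting H
    set H1 : Finset Wo := H.filter (fun w => Cut F w = {0}) with hH1
    set H2 : Finset Wo := H.filter (fun w => w ≠ [] ∧ Cut F w ≠ {0}) with hH2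
    have hsub : H ⊆ {[]} ∪ (H1 ∪ H2) := by
      intro w hw
      by_cases h1 : w = []
      · exact mem_union_left _ (mem_singleton.2 h1)
      · refine mem_union_right _ ?_
        by_cases h2 : Cut F w = {0}
        · exact mem_union_left _ (mem_filter.2 ⟨hw, h2⟩)
        · exact mem_union_right _ (mem_filter.2 ⟨hw, h1, h2⟩)
    have s1 : ∑ w ∈ H, om F s a b w ≤ 1 + (∑ w ∈ H1, om F s a b w + ∑ w ∈ H2, om F s a b w) := by
      have hnn : ∀ w : Wo, 0 ≤ om F s a b w := fun w => (om_pos F s a b w).le
      calc ∑ w ∈ H, om F s a b w ≤ ∑ w ∈ {[]} ∪ (H1 ∪ H2), om F s a b w :=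
            sum_le_sum_of_subset_of_nonneg hsub fun w _ _ => hnn w
        _ ≤ ∑ w ∈ ({[]} : Finset Wo), om F s a b w + ∑ w ∈ H1 ∪ H2, om F s a b w := by
            rw [← sum_union_inter]
            exact le_add_of_nonneg_right (sum_nonneg fun w _ => hnn w)
        _ ≤ 1 + (∑ w ∈ H1, om F s a b w + ∑ w ∈ H2, om F s a b w) := by
            rw [sum_singleton, om_nil]
            have : ∑ w ∈ H1 ∪ H2, om F s a b w ≤
                ∑ w ∈ H1, om F s a b w + ∑ w ∈ H2, om F s a b w := by
              rw [← sum_union_inter]
              exact le_add_of_nonneg_right (sum_nonneg fun w _ => hnn w)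
            linarith
    have s2 : ∑ w ∈ H1, om F s a b w ≤ K * B := by
      have := ren2_split F s a b H1 (Cs 1) E (fun _ => 1) (by
        intro w hw
        rw [hH1, mem_filter, hH, mem_filter] at hw
        obtain ⟨⟨hw1, -⟩, hw2⟩ := hw
        have h0 : 0 ∈ Cut F w := by rw [hw2]; exact mem_singleton_self 0
        have hl := ((mem_Cut F w 0).1 h0).1
        obtain ⟨t1, t2⟩ := htd w hw1 1
        constructor
        · rw [mem_Cs]
          refine ⟨?_, ((ren2_mem _ _).1 t1).2⟩
          rw [List.length_take]; omega
        · rw [hEd, mem_filter]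
          exact ⟨t2, ren2_cut_one F w hw2⟩)
      exact this.trans (mul_le_mul_of_nonneg_left hEB hK0)
    have s3 : ∑ w ∈ H2, om F s a b w ≤ ρ * ∑ w ∈ H, om F s a b w := by
      have hmin : ∀ w ∈ H2, ((Cut F w).erase 0).Nonempty := by
        intro w hw
        rw [hH2, mem_filter, hH, mem_filter] at hw
        obtain ⟨⟨hw1, hw2⟩, hw3, hw4⟩ := hw
        have h0 : 0 ∈ Cut F w := hw2.resolve_left hw3
        rw [nonempty_iff_ne_empty]
        intro he
        apply hw4
        rw [← insert_erase h0, he]
        simp
      have := ren2_split F s a b H2 D H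
        (fun w => if h : ((Cut F w).erase 0).Nonempty then ((Cut F w).erase 0).min' h else 0) (by
        intro w hw
        have hne := hmin w hw
        rw [hH2, mem_filter, hH, mem_filter] at hw
        obtain ⟨⟨hw1, hw2⟩, hw3, hw4⟩ := hw
        have h0 : 0 ∈ Cut F w := hw2.resolve_left hw3
        simp only [dif_pos hne]
        set i := ((Cut F w).erase 0).min' hne with hi
        have him : i ∈ (Cut F w).erase 0 := min'_mem _ _
        rw [mem_erase] at him
        obtain ⟨t1, t2⟩ := htd w hw1 i
        have hlen := ((mem_Cut F w i).1 him.2).1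
        have hl : (w.take i).length = i := by
          rw [List.length_take]; exact min_eq_left hlen.le
        constructor
        · rw [hD, mem_filter]
          refine ⟨t1, ?_, ?_⟩
          · ext j
            rw [ren2_cut_take F w i j him.2, mem_singleton]
            constructor
            · rintro ⟨h1, h2⟩
              by_contra hj
              have : i ≤ j := min'_le _ _ (by rw [mem_erase]; exact ⟨hj, h2⟩)
              omega
            · rintro rfl
              exact ⟨by omega, h0⟩
          · intro j hj
            rw [hl] at hj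
            rw [pu_take F w i j hj, su_take]
            exact ((mem_Cut F w i).1 him.2).2.1 j hj
        · rw [hH, mem_filter]
          exact ⟨t2, Or.inr (ren2_cut_drop F w i him.2)⟩)
      exact this.trans (mul_le_mul_of_nonneg_right hDB hH0)
    have s4 : ∑ w ∈ H, om F s a b w ≤ (1 + K * B) / (1 - ρ) := by
      rw [le_div_iff₀ (by linarith)]
      nlinarith [s1, s2, s3]
    -- all words
    set R : Finset Wo := (ren2C N).filter (fun w => Cut F w ≠ ∅) with hR
    have hB0 : 0 ≤ B := hE0.trans hEB
    have s5 : ∑ w ∈ R, om F s a b w ≤ B * ((1 + K * B) / (1 - ρ)) := by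
      have := ren2_split F s a b R E H
        (fun w => if h : (Cut F w).Nonempty then (Cut F w).min' h else 0) (by
        intro w hw
        rw [hR, mem_filter] at hw
        obtain ⟨hw1, hw2⟩ := hw
        have hne : (Cut F w).Nonempty := nonempty_iff_ne_empty.2 hw2
        simp only [dif_pos hne]
        set i := (Cut F w).min' hne with hi
        have him : i ∈ Cut F w := min'_mem _ _
        obtain ⟨t1, t2⟩ := htd w hw1 i
        constructor
        · rw [hEd, mem_filter]
          refine ⟨t1, ?_⟩
          rw [eq_empty_iff_forall_notMem]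
          intro j hj
          rw [ren2_cut_take F w i j him] at hj
          have : i ≤ j := min'_le _ _ hj.2
          omega
        · rw [hH, mem_filter]
          exact ⟨t2, Or.inr (ren2_cut_drop F w i him)⟩)
      exact this.trans (mul_le_mul hEB s4 hH0 hB0)
    rw [ren2_Gs]
    calc ∑ w ∈ (ren2C N).filter (fun _ => True), om F s a b w
        = ∑ w ∈ ren2C N, om F s a b w := by
          refine sum_congr ?_ fun _ _ => rfl
          ext w
          simp only [mem_filter, and_true]
      _ = ∑ w ∈ E, om F s a b w + ∑ w ∈ R, om F s a b w := by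
          rw [hEd, hR]
          exact (sum_filter_add_sum_filter_not _ _ _).symm
      _ ≤ _ := add_le_add hEB s5
  exact key

end Pool.Agent.QSB
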