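import Pool.Agent.QSB.Stmts
import Pool.Agent.SUBB.SBW

/-!
# Project QSB (MP_f6626d_co), module SBW: quantitative sub-ballisticity of the displacement
-/

set_option autoImplicit false

namespace Pool.Agent.QSB

open Finset Filter Topology
open Pool.Agent.Lib27 Pool.Agent.SUBB

namespace SBWx

/-- the displacement is at most the length -/
lemma base (l v : ℝ) (hl : 0 < l) (hv : 1 < v) :
    QT l (fun w => v * (w.length : ℝ) ≤ (su axF w : ℝ)) := by
  classical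
  rw [QT_iff]
  intro n
  rcases Nat.eq_zero_or_pos n with rfl | hn
  · have h1 : (((Cs 0).filter (fun w : Wo => v * (w.length : ℝ) ≤ (su axF w : ℝ))).card : ℝ) ≤
        ((Cs 0).card : ℝ) := by exact_mod_cast card_filter_le _ _
    refine h1.trans ?_
    rw [Cs_zero]
    have h2 : (1 : ℝ) ≤ Real.exp (1 / l) := Real.one_le_exp (by positivity)
    simpa using h2
  · have h1 : (Cs n).filter (fun w : Wo => v * (w.length : ℝ) ≤ (su axF w : ℝ)) = ∅ := by
      rw [filter_eq_empty_iff]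
      intro w hw hcon
      have h2 := Cs_length hw
      have h3 := (abs_le.1 (abs_su_le axF w)).2
      have h4 : (su axF w : ℝ) ≤ (w.length : ℝ) := by exact_mod_cast h3
      have h5 : (0 : ℝ) < (w.length : ℝ) := by rw [h2]; exact_mod_cast hn
      nlinarith
    rw [h1]
    simp only [card_empty, Nat.cast_zero]
    positivity

/-- THR at dyadic levels -/
def DY (K : ℕ) : Prop := ∀ (F : Frame) (v : ℝ) (E m E' : ℕ), 0 < v → v ≤ 3 / 2 →
  (1 / 2 : ℝ) ^ m ≤ v → 1 ≤ E → K * (E + m) ≤ E' →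
  QT ((1 / 2) ^ E) (fun w => v * (w.length : ℝ) ≤ (su F w : ℝ)) →
  QT ((1 / 2) ^ E') (fun w => 11 / 10 * v * (w.length : ℝ) ≤ ((su F w + st F w : ℤ) : ℝ))

lemma dy (hT : THR_Stmt) : ∃ K : ℕ, 1 ≤ K ∧ DY K := by
  obtain ⟨K, hK⟩ := hT
  refine ⟨K + 1, by omega, fun F v E m E' hv hv1 hm hE hE' hQ => ?_⟩
  have h1 : (1 / 2 : ℝ) ^ E ≤ 1 / 2 := by
    calc (1 / 2 : ℝ) ^ E ≤ (1 / 2) ^ 1 := pow_le_pow_of_le_one (by norm_num) (by norm_num) hE
      _ = 1 / 2 := pow_one _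
  have h2 := hK F v ((1 / 2) ^ E) hv hv1 (by positivity) h1 hQ
  refine QT_anti (by positivity) ?_ h2
  have h3 : (E + m) * K ≤ E' := by
    refine le_trans ?_ hE'
    rw [mul_comm]
    exact Nat.mul_le_mul_right _ (by omega)
  calc (1 / 2 : ℝ) ^ E' ≤ (1 / 2) ^ ((E + m) * K) :=
        pow_le_pow_of_le_one (by norm_num) (by norm_num) h3
    _ = ((1 / 2) ^ E * (1 / 2) ^ m) ^ K := by rw [pow_mul, pow_add]
    _ ≤ ((1 / 2) ^ E * v) ^ K :=
        pow_le_pow_left₀ (by positivity) (mul_le_mul_of_nonneg_left hm (by positivity)) K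

lemma half_le (m : ℕ) : (1 / 2 : ℝ) ^ m ≤ (2 / 3) ^ m :=
  pow_le_pow_left₀ (by norm_num) (by norm_num) m

lemma third_le (m : ℕ) : (2 / 3 : ℝ) ^ m ≤ 1 := pow_le_one₀ (by norm_num) (by norm_num)

lemma main {K A : ℕ} (hK : 1 ≤ K) (hA : 3 * K ^ 2 ≤ A) (hD : DY K) (m : ℕ) :
    QT ((1 / 2) ^ (A ^ (m + 1)))
      (fun w => 5 / 4 * (2 / 3) ^ m * (w.length : ℝ) ≤ (su axF w : ℝ)) := by
  have hA2 : 2 ≤ A := by nlinarith
  induction m with
  | zero => exact base _ _ (by positivity) (by norm_num)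
  | succ m ih =>
    have hm1 := half_le m
    have hm2 := third_le m
    have hm0 : (0 : ℝ) < (2 / 3) ^ m := by positivity
    have hE1 : 1 ≤ A ^ (m + 1) := Nat.one_le_pow _ _ (by omega)
    have hmE : m ≤ A ^ (m + 1) := by
      calc m ≤ 2 ^ m := (Nat.lt_two_pow_self).le
        _ ≤ A ^ m := Nat.pow_le_pow_left hA2 m
        _ ≤ A ^ (m + 1) := Nat.pow_le_pow_right (by omega) (by omega)
    have h1 := hD axF (5 / 4 * (2 / 3) ^ m) (A ^ (m + 1)) m (K * (A ^ (m + 1) + m))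
      (by positivity) (by linarith) (by linarith) hE1 le_rfl ih
    have h2 : QT ((1 / 2) ^ (K * (A ^ (m + 1) + m)))
        (fun w => 11 / 10 * (5 / 4 * (2 / 3) ^ m) * (w.length : ℝ) ≤ (su dgF w : ℝ)) := by
      refine QT_mono (fun w hw => ?_) h1
      rw [SBW_su_dgF] at hw
      exact hw
    have h3 : K * (K * (A ^ (m + 1) + m) + m) ≤ A ^ (m + 1 + 1) := by
      have h4 : K * (A ^ (m + 1) + m) + m ≤ 3 * K * A ^ (m + 1) := by
        have h5 : K * (A ^ (m + 1) + m) ≤ K * (A ^ (m + 1) + A ^ (m + 1)) :=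
          Nat.mul_le_mul_left _ (by omega)
        have h6 : m ≤ K * A ^ (m + 1) := hmE.trans (Nat.le_mul_of_pos_left _ hK)
        calc K * (A ^ (m + 1) + m) + m ≤ K * (A ^ (m + 1) + A ^ (m + 1)) + K * A ^ (m + 1) :=
              Nat.add_le_add h5 h6
          _ = 3 * K * A ^ (m + 1) := by ring
      calc K * (K * (A ^ (m + 1) + m) + m) ≤ K * (3 * K * A ^ (m + 1)) :=
            Nat.mul_le_mul_left _ h4
        _ = 3 * K ^ 2 * A ^ (m + 1) := by ring
        _ ≤ A * A ^ (m + 1) := Nat.mul_le_mul_right _ hA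
        _ = A ^ (m + 1 + 1) := by ring
    have hE2 : 1 ≤ K * (A ^ (m + 1) + m) := Nat.mul_pos hK (by omega)
    have h4 := hD dgF (11 / 10 * (5 / 4 * (2 / 3) ^ m)) (K * (A ^ (m + 1) + m)) m
      (A ^ (m + 1 + 1)) (by positivity) (by linarith) (by linarith) hE2 h3 h2
    refine QT_mono (fun w hw => ?_) h4
    have h5 : su dgF w + st dgF w = 2 * su axF w := by
      rw [SBW_su_dgF, SBW_st_dgF]
      ring
    rw [h5]
    push_cast
    have h6 : (5 / 4 : ℝ) * (2 / 3) ^ (m + 1) * (w.length : ℝ) =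
        5 / 6 * ((2 / 3) ^ m * (w.length : ℝ)) := by ring
    have h7 : (11 / 10 : ℝ) * (11 / 10 * (5 / 4 * (2 / 3) ^ m)) * (w.length : ℝ) =
        121 / 80 * ((2 / 3) ^ m * (w.length : ℝ)) := by ring
    have h8 : (0 : ℝ) ≤ (2 / 3) ^ m * (w.length : ℝ) := by positivity
    rw [h7]
    rw [h6] at hw
    linarith

end SBWx

open SBWx in
theorem t_SBW (hT : THR_Stmt) : SBW_Stmt := by
  obtain ⟨K, hK, hD⟩ := dy hT
  have hB0 : 3 ≤ 3 * K ^ 2 := by nlinarith
  refine ⟨3 * K ^ 2 * (2 * K), by nlinarith, fun m => ?_⟩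
  set B : ℕ := 3 * K ^ 2 with hB
  have h1 := main hK (le_refl B) hD m
  have hm1 := half_le m
  have hm2 := third_le m
  have hm0 : (0 : ℝ) < (2 / 3) ^ m := by positivity
  have hE1 : 1 ≤ B ^ (m + 1) := Nat.one_le_pow _ _ (by omega)
  have hmE : m ≤ B ^ (m + 1) := by
    calc m ≤ 2 ^ m := (Nat.lt_two_pow_self).le
      _ ≤ B ^ m := Nat.pow_le_pow_left (by omega) m
      _ ≤ B ^ (m + 1) := Nat.pow_le_pow_right (by omega) (by omega)
  have h2 : K * (B ^ (m + 1) + m) ≤ (B * (2 * K)) ^ (m + 1) := by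
    calc K * (B ^ (m + 1) + m) ≤ K * (B ^ (m + 1) + B ^ (m + 1)) :=
          Nat.mul_le_mul_left _ (by omega)
      _ = B ^ (m + 1) * (2 * K) ^ 1 := by ring
      _ ≤ B ^ (m + 1) * (2 * K) ^ (m + 1) :=
          Nat.mul_le_mul_left _ (Nat.pow_le_pow_right (by omega) (by omega))
      _ = (B * (2 * K)) ^ (m + 1) := (mul_pow _ _ _).symm
  have h3 := hD axF (5 / 4 * (2 / 3) ^ m) (B ^ (m + 1)) m ((B * (2 * K)) ^ (m + 1))
    (by positivity) (by linarith) (by linarith) hE1 h2 h1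
  refine QT_mono (fun w hw => ?_) h3
  have h4 : su axF w + st axF w = (ep 0 w).1 + (ep 0 w).2 := by
    rw [su_eq_ep, st_eq_ep]
    simp [axF]
  rw [h4]
  refine le_trans ?_ hw
  have h5 : (0 : ℝ) ≤ (2 / 3) ^ m * (w.length : ℝ) := by positivity
  have h6 : (11 / 10 : ℝ) * (5 / 4 * (2 / 3) ^ m) * (w.length : ℝ) =
      11 / 8 * ((2 / 3) ^ m * (w.length : ℝ)) := by ring
  have h7 : (2 : ℝ) * (2 / 3) ^ m * (w.length : ℝ) =
      2 * ((2 / 3) ^ m * (w.length : ℝ)) := by ring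
  rw [h6, h7]
  linarith

end Pool.Agent.QSB
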