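import Pool.Agent.QSB.Stmts
import Pool.Agent.SUBB.SML

/-!
# QSB, module SML: weighted unfolding of the small backtracks, quantitative form (helper85)
-/

set_option autoImplicit false

namespace Pool.Agent.QSB

open Finset Filter Topology
open Pool.Agent.Lib27 Pool.Agent.SUBB

namespace SMLx

open Classical in
/-- the possible positions of the boundaries -/
noncomputable def Z (F : Frame) (w : Wo) : Finset ℕ :=
  Cut F w ∪ (Cut F w).image (fun i => i + 1)

lemma Z_card (F : Frame) (w : Wo) : (Z F w).card ≤ 2 * (Cut F w).card := by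
  classical
  unfold Z
  calc (Cut F w ∪ (Cut F w).image (fun i => i + 1)).card
      ≤ (Cut F w).card + ((Cut F w).image (fun i => i + 1)).card := card_union_le _ _
    _ ≤ (Cut F w).card + (Cut F w).card := by
      have := card_image_le (s := Cut F w) (f := fun i => i + 1)
      omega
    _ = _ := by ring

lemma sum_powerset (y : ℝ) (Y : Finset ℕ) :
    ∑ B ∈ Y.powerset, y ^ B.card = (1 + y) ^ Y.card := by
  have h := Finset.sum_pow_mul_eq_add_pow y (1 : ℝ) Y
  simp only [one_pow, mul_one] at h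
  rw [h, add_comm]

/-- the sum over the admissible sets of times -/
lemma sum_A (hBI : BDI_Stmt) (F : Frame) (n : ℕ) (w : Wo) (y : ℝ) (hy : 0 ≤ y) :
    ∑ A ∈ smlA F n w, y ^ (bd A n).card ≤ (1 + y) ^ (Z F w).card := by
  classical
  have hinj : Set.InjOn (fun A => bd A n) (smlA F n w : Set (Finset ℕ)) := by
    intro A hA B hB hAB
    rw [mem_coe] at hA hB
    unfold smlA at hA hB
    rw [mem_filter, mem_powerset] at hA hB
    exact hBI n A B hA.1 hB.1 hAB
  calc ∑ A ∈ smlA F n w, y ^ (bd A n).card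
      = ∑ B ∈ (smlA F n w).image (fun A => bd A n), y ^ B.card :=
        (sum_image (f := fun B : Finset ℕ => y ^ B.card) hinj).symm
    _ ≤ ∑ B ∈ (Z F w).powerset, y ^ B.card := by
      apply sum_le_sum_of_subset_of_nonneg
      · intro B hB
        rw [mem_image] at hB
        obtain ⟨A, hA, rfl⟩ := hB
        unfold smlA at hA
        rw [mem_filter] at hA
        rw [mem_powerset]
        unfold Z
        exact hA.2
      · intro B _ _
        positivity
    _ = _ := sum_powerset y _

/-- `(1 + 1/L)^L ≤ 3` -/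
lemma pow_le_three (L : ℕ) (hL : 0 < L) : (1 + 1 / (L : ℝ)) ^ L ≤ 3 := by
  have hL' : (0 : ℝ) < L := by exact_mod_cast hL
  have h1 : 1 + 1 / (L : ℝ) ≤ Real.exp (1 / (L : ℝ)) := by
    have := Real.add_one_le_exp (1 / (L : ℝ))
    linarith
  calc (1 + 1 / (L : ℝ)) ^ L ≤ Real.exp (1 / (L : ℝ)) ^ L :=
        pow_le_pow_left₀ (by positivity) h1 L
    _ = Real.exp 1 := by
      rw [← Real.exp_nat_mul]
      congr 1
      field_simp
    _ ≤ 3 := by
      have := Real.exp_one_lt_d9
      linarith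

/-- the comparison of the weights -/
lemma weight (L : ℕ) (hL : 0 < L) (s b z : ℕ) (hb : b ≤ 2 * s) (hz : z ≤ 6 * (L * s)) :
    (1 / (1000 * (L : ℝ) ^ 2)) ^ s ≤ (1 / (L : ℝ)) ^ b * ((1 + 1 / (L : ℝ)) ^ z)⁻¹ := by
  have hL' : (0 : ℝ) < L := by exact_mod_cast hL
  have hL1 : (1 : ℝ) ≤ L := by exact_mod_cast hL
  have h1 : (1 / (L : ℝ)) ^ (2 * s) ≤ (1 / (L : ℝ)) ^ b := by
    refine pow_le_pow_of_le_one (by positivity) ?_ hb
    rw [div_le_one hL']
    exact hL1
  have h2 : (1 + 1 / (L : ℝ)) ^ z ≤ 1000 ^ s := by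
    calc (1 + 1 / (L : ℝ)) ^ z ≤ (1 + 1 / (L : ℝ)) ^ (6 * (L * s)) := by
          refine pow_le_pow_right₀ ?_ hz
          have : 0 < 1 / (L : ℝ) := by positivity
          linarith
      _ = (((1 + 1 / (L : ℝ)) ^ L) ^ 6) ^ s := by
          rw [← pow_mul, ← pow_mul]
          congr 1
          ring
      _ ≤ ((3 : ℝ) ^ 6) ^ s := by
          refine pow_le_pow_left₀ (by positivity) ?_ s
          exact pow_le_pow_left₀ (by positivity) (pow_le_three L hL) 6
      _ ≤ 1000 ^ s := by
          refine pow_le_pow_left₀ (by positivity) ?_ s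
          norm_num
  have h3 : ((1000 : ℝ) ^ s)⁻¹ ≤ ((1 + 1 / (L : ℝ)) ^ z)⁻¹ :=
    inv_anti₀ (by positivity) h2
  calc (1 / (1000 * (L : ℝ) ^ 2)) ^ s = (1 / (L : ℝ)) ^ (2 * s) * ((1000 : ℝ) ^ s)⁻¹ := by
        rw [pow_mul, ← inv_pow, ← mul_pow]
        congr 1
        field_simp
    _ ≤ _ := mul_le_mul h1 h3 (by positivity) (by positivity)

end SMLx

open SMLx

theorem t_SML (hL : LNK_Stmt) (hM : MUL_Stmt) (hBI : BDI_Stmt) (hBC : BDC_Stmt)
    (hUV : UNV_Stmt) : SML_Stmt := by
  classical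
  intro F n L hLpos
  have hL' : (0 : ℝ) < L := by exact_mod_cast hLpos
  set x : ℝ := 1 / (1000 * (L : ℝ) ^ 2) with hx
  have hx0 : 0 < x := by rw [hx]; positivity
  set y : ℝ := 1 / (L : ℝ) with hy
  have hy0 : 0 < y := by rw [hy]; positivity
  set W : Finset Wo := (Cs n).filter (fun w => Cut F w = ∅) with hW
  let T : Wo → Finset (ℕ × ℕ) := fun w => (V F w).filter (fun q => sz F w q < L)
  have e1 : ∀ w : Wo, (1 + x) ^ ((V F w).filter (fun q => sz F w q < L)).card
      = ∑ S ∈ (T w).powerset, x ^ S.card := by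
    intro w
    have h := Finset.sum_pow_mul_eq_add_pow x (1 : ℝ) (T w)
    simp only [one_pow, mul_one] at h
    rw [h, add_comm]
  let P : Finset (Σ _ : Wo, Finset (ℕ × ℕ)) := W.sigma fun w => (T w).powerset
  let Φ : (Σ _ : Wo, Finset (ℕ × ℕ)) → (Σ _ : Wo, Finset ℕ) :=
    fun p => ⟨flp F (cov p.2) p.1, cov p.2⟩
  let g : (Σ _ : Wo, Finset ℕ) → ℝ :=
    fun q => y ^ (bd q.2 n).card * ((1 + y) ^ (Z F q.1).card)⁻¹
  let Q : Finset (Σ _ : Wo, Finset ℕ) := (Cs n).sigma fun w => smlA F n w
  have hPmem : ∀ p ∈ P, p.1 ∈ Cs n ∧ Cut F p.1 = ∅ ∧ p.2 ⊆ V F p.1 ∧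
      ∀ q ∈ p.2, sz F p.1 q < L := by
    intro p hp
    rw [mem_sigma, hW, mem_filter, mem_powerset] at hp
    refine ⟨hp.1.1, hp.1.2, ?_, ?_⟩
    · exact hp.2.trans (filter_subset _ _)
    · intro q hq
      exact (mem_filter.1 (hp.2 hq)).2
  have hinj : Set.InjOn Φ (P : Set (Σ _ : Wo, Finset (ℕ × ℕ))) := by
    rintro ⟨w, S⟩ hp ⟨w1, S1⟩ hp1 h
    have a1 := hPmem _ (mem_coe.1 hp)
    have a2 := hPmem _ (mem_coe.1 hp1)
    simp only at a1 a2
    have h2 : flp F (cov S) w = flp F (cov S1) w1 ∧ cov S = cov S1 := by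
      simpa [Φ] using h
    have h3 : w = w1 := by
      have := congrArg (flp F (cov S)) h2.1
      rw [flp_flp, h2.2, flp_flp] at this
      exact this
    subst h3
    have h4 : S = S1 :=
      Subset.antisymm (sml_cov_inj hUV F w S S1 a1.2.2.1 a2.2.2.1 h2.2)
        (sml_cov_inj hUV F w S1 S a2.2.2.1 a1.2.2.1 h2.2.symm)
    rw [h4]
  have hmaps : ∀ p ∈ P, Φ p ∈ Q ∧ x ^ p.2.card ≤ g (Φ p) := by
    intro p hp
    obtain ⟨h1, h2, h3, h4⟩ := hPmem p hp
    obtain ⟨w, S⟩ := p
    simp only at h1 h2 h3 h4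
    have hlen : w.length = n := Cs_length h1
    have hSA : SA F w := (hL F w).1 ((mem_Cs n w).1 h1).2
    obtain ⟨m1, m2, m3, m4, m5⟩ := hM F w S hSA h3
    have hvp : ∀ q ∈ S, q.1 < q.2 ∧ q.2 ≤ n := by
      intro q hq
      have := (mem_V F w q).1 (h3 hq)
      exact ⟨this.1, hlen ▸ this.2.1⟩
    constructor
    · simp only [Q, Φ]
      rw [mem_sigma]
      constructor
      · rw [mem_Cs]
        exact ⟨by rw [flp_length]; exact hlen, (hL F _).2 m1⟩
      · simp only [smlA]
        rw [mem_filter, mem_powerset]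
        constructor
        · intro i hi
          unfold cov at hi
          rw [mem_biUnion] at hi
          obtain ⟨q, hq, hqi⟩ := hi
          rw [mem_Ico] at hqi
          rw [mem_range]
          have := hvp q hq
          omega
        · refine (hBC n S hvp).trans ?_
          intro i hi
          rw [mem_union] at hi ⊢
          rcases hi with hi | hi
          · left
            rw [mem_image] at hi
            obtain ⟨q, hq, rfl⟩ := hi
            exact (m4 q hq).1
          · right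
            rw [mem_image] at hi
            obtain ⟨q, hq, rfl⟩ := hi
            rw [mem_image]
            refine ⟨q.2 - 1, (m4 q hq).2, ?_⟩
            have := hvp q hq
            omega
    · simp only [g, Φ]
      have hs : ∑ q ∈ S, sz F w q ≤ S.card * L := by
        calc ∑ q ∈ S, sz F w q ≤ ∑ _q ∈ S, L := sum_le_sum fun q hq => (h4 q hq).le
          _ = S.card * L := by rw [sum_const, smul_eq_mul]
      have hc : (Cut F (flp F (cov S) w)).card ≤ 3 * (L * S.card) := by
        rw [h2, card_empty] at m5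
        have : L * S.card = S.card * L := mul_comm _ _
        omega
      have hz : (Z F (flp F (cov S) w)).card ≤ 6 * (L * S.card) := by
        have := Z_card F (flp F (cov S) w)
        omega
      have hb : (bd (cov S) n).card ≤ 2 * S.card := by
        calc (bd (cov S) n).card ≤ (S.image Prod.fst ∪ S.image Prod.snd).card :=
              card_le_card (hBC n S hvp)
          _ ≤ (S.image Prod.fst).card + (S.image Prod.snd).card := card_union_le _ _
          _ ≤ 2 * S.card := by
            have i1 := card_image_le (s := S) (f := Prod.fst)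
            have i2 := card_image_le (s := S) (f := Prod.snd)
            omega
      exact weight L hLpos S.card _ _ hb hz
  calc ∑ w ∈ W, (1 + x) ^ ((V F w).filter (fun q => sz F w q < L)).card
      = ∑ w ∈ W, ∑ S ∈ (T w).powerset, x ^ S.card := sum_congr rfl fun w _ => e1 w
    _ = ∑ p ∈ P, x ^ p.2.card := by
      rw [sum_sigma]
    _ ≤ ∑ p ∈ P, g (Φ p) := sum_le_sum fun p hp => (hmaps p hp).2
    _ = ∑ q ∈ P.image Φ, g q := (sum_image hinj).symm
    _ ≤ ∑ q ∈ Q, g q := by
      apply sum_le_sum_of_subset_of_nonneg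
      · intro q hq
        rw [mem_image] at hq
        obtain ⟨p, hp, rfl⟩ := hq
        exact (hmaps p hp).1
      · intro q _ _
        simp only [g]
        positivity
    _ = ∑ w ∈ Cs n, ∑ A ∈ smlA F n w, y ^ (bd A n).card * ((1 + y) ^ (Z F w).card)⁻¹ := by
      rw [sum_sigma]
    _ ≤ ∑ _w ∈ Cs n, (1 : ℝ) := by
      apply sum_le_sum
      intro w _
      rw [← sum_mul]
      have h := sum_A hBI F n w y hy0.le
      have hpos : 0 < (1 + y) ^ (Z F w).card := by positivity
      calc (∑ A ∈ smlA F n w, y ^ (bd A n).card) * ((1 + y) ^ (Z F w).card)⁻¹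
          ≤ (1 + y) ^ (Z F w).card * ((1 + y) ^ (Z F w).card)⁻¹ :=
            mul_le_mul_of_nonneg_right h (by positivity)
        _ = 1 := mul_inv_cancel₀ hpos.ne'
    _ = ((Cs n).card : ℝ) := by simp

end Pool.Agent.QSB
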