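import Pool.Agent.QSB.Stmts
import Pool.Agent.SUBB.NCT

/-!
# Project QSB, module THR: the rarity of large `u + t` from the rarity of large `u`
-/

set_option autoImplicit false

namespace Pool.Agent.QSB

open Finset Filter Topology
open Pool.Agent.Lib27 Pool.Agent.SUBB

namespace THRx

/-- large displacements in the `t`-direction are rare, with the same level -/
lemma QT_st (hMAP : MAP_Stmt) (F : Frame) (v l : ℝ)
    (h : QT l (fun w => v * (w.length : ℝ) ≤ (su F w : ℝ))) :
    QT l (fun w => v * (w.length : ℝ) ≤ (st F w : ℝ)) := by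
  classical
  rw [QT_iff] at h ⊢
  intro n
  refine le_trans ?_ (h n)
  have : ((Cs n).filter (fun w => v * (w.length : ℝ) ≤ (st F w : ℝ))).card ≤
      ((Cs n).filter (fun w => v * (w.length : ℝ) ≤ (su F w : ℝ))).card := by
    apply card_le_card_of_injOn (fun w => w.map F.sw)
    · intro w hw
      rw [mem_coe, mem_filter] at hw ⊢
      refine ⟨((hMAP F n w).2.1).2 hw.1, ?_⟩
      rw [List.length_map, su_map_sw]
      exact hw.2
    · intro w _ w' _ he
      have he' : (w.map F.sw).map F.sw = (w'.map F.sw).map F.sw := congrArg _ he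
      rwa [map_sw_sw, map_sw_sw] at he'
  exact_mod_cast this

/-- the bound with the factor `1 + (15/16)^j` -/
lemma step (hG : GST_Stmt) (hM : MAP_Stmt) (j : ℕ) : ∃ K : ℕ, ∀ (F : Frame) (v l : ℝ),
    0 < v → v ≤ 3 / 2 → 0 < l → l ≤ 1 / 2 →
    QT l (fun w => v * (w.length : ℝ) ≤ (su F w : ℝ)) →
    QT ((l * v) ^ K) (fun w => (1 + (15 / 16 : ℝ) ^ j) * v * (w.length : ℝ) ≤
      ((su F w + st F w : ℤ) : ℝ)) := by
  induction j with
  | zero =>
    obtain ⟨K, -, -, hK⟩ := pow_absorb 3 1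
    refine ⟨K, fun F v l hv hv1 hl hl1 h => ?_⟩
    have hx : 0 < l * v := mul_pos hl hv
    have hx1 : l * v ≤ 3 / 4 := by nlinarith
    have hx2 : l * v ≤ 3 / 2 * l := by nlinarith
    have h1 := hK (l * v) hx hx1
    rw [pow_one] at h1
    have h2 : (l * v) ^ K ≤ l / 2 := by linarith
    refine QT_anti (pow_pos hx _) h2 ?_
    refine QT_mono ?_ (QT_or hl (by linarith) h (QT_st hM F v l h))
    intro w hw
    by_contra hcon
    push Not at hcon
    push_cast at hw
    rw [pow_zero] at hw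
    linarith [hcon.1, hcon.2]
  | succ j ih =>
    obtain ⟨K, hK⟩ := ih
    obtain ⟨G, hG⟩ := hG
    have hc : 0 < (15 / 16 : ℝ) ^ j := by positivity
    have hc1 : (15 / 16 : ℝ) ^ j ≤ 1 := pow_le_one₀ (by norm_num) (by norm_num)
    obtain ⟨K', -, -, hK'⟩ := pow_absorb (1 / ((15 / 16 : ℝ) ^ j / 8) ^ G) ((K + 4) * G)
    refine ⟨K', fun F v l hv hv1 hl hl1 h => ?_⟩
    have hx : 0 < l * v := mul_pos hl hv
    have hx1 : l * v ≤ 3 / 4 := by nlinarith
    have hx2 : l * v ≤ 3 / 2 * l := by nlinarith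
    have hx3 : l * v ≤ v := by nlinarith
    have hl₁ : 0 < (l * v) ^ (K + 3) := pow_pos hx _
    have h3 : (l * v) ^ 2 ≤ 9 / 16 := by nlinarith
    have h4 : (l * v) ^ 3 ≤ (l * v) * (9 / 16) := by
      calc (l * v) ^ 3 = (l * v) * (l * v) ^ 2 := by ring
        _ ≤ _ := mul_le_mul_of_nonneg_left h3 hx.le
    have h5 : (l * v) ^ (K + 3) ≤ (l * v) ^ 3 :=
      pow_le_pow_of_le_one hx.le (by linarith) (by omega)
    have h6 : (l * v) ^ (K + 3) ≤ (l * v) ^ K :=
      pow_le_pow_of_le_one hx.le (by linarith) (by omega)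
    have hA : QT ((l * v) ^ (K + 3)) (fun w => v * (w.length : ℝ) ≤ (su F w : ℝ)) :=
      QT_anti hl₁ (by linarith) h
    have hB := QT_anti hl₁ h6 (hK F v l hv hv1 hl hl1 h)
    have hd : 0 < (15 / 16 : ℝ) ^ j * v / 8 := by positivity
    have hcv : (15 / 16 : ℝ) ^ j * v ≤ v := by nlinarith
    have h7 := hG F v ((1 + (15 / 16 : ℝ) ^ j) * v) ((15 / 16 : ℝ) ^ j * v / 8)
      ((l * v) ^ (K + 3)) hv.le (le_of_eq (by ring)) (by nlinarith) hd (by linarith) hl₁
      (by linarith) hA hB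
    have h8 : (1 + (15 / 16 : ℝ) ^ j) * v - (15 / 16 : ℝ) ^ j * v / 8 / 2 =
        (1 + (15 / 16 : ℝ) ^ (j + 1)) * v := by
      rw [pow_succ]
      ring
    rw [h8] at h7
    refine QT_anti (pow_pos hx _) ?_ h7
    have hcG : 0 < ((15 / 16 : ℝ) ^ j / 8) ^ G := by positivity
    have h9 := hK' (l * v) hx hx1
    rw [one_div, inv_mul_le_iff₀ hcG] at h9
    refine h9.trans ?_
    calc ((15 / 16 : ℝ) ^ j / 8) ^ G * (l * v) ^ ((K + 4) * G)
        = ((l * v) ^ (K + 3) * ((15 / 16 : ℝ) ^ j / 8 * (l * v))) ^ G := by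
          rw [pow_mul, ← mul_pow]
          congr 1
          ring
      _ ≤ ((l * v) ^ (K + 3) * ((15 / 16 : ℝ) ^ j * v / 8)) ^ G := by
          apply pow_le_pow_left₀ (by positivity)
          apply mul_le_mul_of_nonneg_left _ hl₁.le
          nlinarith

end THRx

open THRx in
/-- the rarity of large `u + t` from the rarity of large `u` -/
theorem t_THR (hG : GST_Stmt) (hM : MAP_Stmt) : THR_Stmt := by
  obtain ⟨K, hK⟩ := step hG hM 36
  refine ⟨K, fun F v l hv hv1 hl hl1 h => ?_⟩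
  refine QT_mono ?_ (hK F v l hv hv1 hl hl1 h)
  intro w hw
  refine le_trans ?_ hw
  apply mul_le_mul_of_nonneg_right _ (Nat.cast_nonneg _)
  apply mul_le_mul_of_nonneg_right _ hv.le
  norm_num

end Pool.Agent.QSB
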