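import Pool.Agent.QSB.Stmts

/-!
# Module TS1 (project QSB, helper9): rare events have exponential moments
-/

set_option autoImplicit false

namespace Pool.Agent.QSB

open Finset Filter Topology
open Pool.Agent.Lib27 Pool.Agent.SUBB

namespace TS1x

theorem all_eq {α : Type*} (s : Finset α) (P : α → Prop) (inst : DecidablePred P)
    (h : ∀ x, P x) : @Finset.filter α P inst s = s :=
  Finset.filter_true_of_mem fun x _ => h x

end TS1x

theorem t_TS1 (h : CSU_Stmt) : TS1_Stmt := by
  classical
  intro ψ hψ v d l lam hv hv3 hd hd1 hl hl1 hthin hlam hlam1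
  obtain ⟨C, hC, hCs⟩ := h
  obtain ⟨ε, hεd⟩ : ∃ ε : ℝ, ε = lam * d / 2 := ⟨_, rfl⟩
  have hε : 0 < ε := by
    rw [hεd]
    positivity
  have hε1 : ε ≤ 1 := by
    rw [hεd]
    have h1 : lam * d ≤ 1 * 1 := mul_le_mul (by linarith) hd1 hd.le (by norm_num)
    linarith
  have hth := (QT_iff l _).1 hthin
  refine ⟨Real.exp (1 / l) * (2 / (l / 2)) + Real.exp (C / ε) * (2 / ε), ?_⟩
  intro N
  unfold Gs
  have key : ∀ n : ℕ, ∑ w ∈ Cs n,
      Real.exp (-((Lm + lam * (v + d)) * (w.length : ℝ)) + lam * ψ w) ≤
      Real.exp (1 / l) * Real.exp (-(l / 2 * n)) + Real.exp (C / ε) * Real.exp (-(ε * n)) := by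
    intro n
    have hn : (0 : ℝ) ≤ n := Nat.cast_nonneg n
    rw [← Finset.sum_filter_add_sum_filter_not _ (fun w : Wo => v * (w.length : ℝ) ≤ ψ w)]
    have hmem : ∀ w ∈ Cs n, w.length = n := fun w hw => Cs_length hw
    apply add_le_add
    · have hcard := hth n
      calc ∑ w ∈ (Cs n).filter (fun w : Wo => v * (w.length : ℝ) ≤ ψ w),
            Real.exp (-((Lm + lam * (v + d)) * (w.length : ℝ)) + lam * ψ w)
          ≤ ∑ _w ∈ (Cs n).filter (fun w : Wo => v * (w.length : ℝ) ≤ ψ w),
            Real.exp ((-Lm + l / 2) * n) := by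
            apply Finset.sum_le_sum
            intro w hw
            have hlen := hmem w (mem_filter.mp hw).1
            rw [hlen]
            apply Real.exp_le_exp.mpr
            have h1 : ψ w ≤ 2 * (n : ℝ) := by
              have := (abs_le.mp (hψ w)).2
              rwa [hlen] at this
            have h3 : lam * ψ w ≤ lam * (2 * (n : ℝ)) := mul_le_mul_of_nonneg_left h1 hlam.le
            have h4 : 0 ≤ lam * (v + d) * n := by positivity
            have h5 : lam * n ≤ l / 12 * n := mul_le_mul_of_nonneg_right hlam1 hn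
            have h6 : 0 ≤ l * n := by positivity
            nlinarith
        _ = (((Cs n).filter (fun w : Wo => v * (w.length : ℝ) ≤ ψ w)).card : ℝ) *
            Real.exp ((-Lm + l / 2) * n) := by rw [Finset.sum_const, nsmul_eq_mul]
        _ ≤ (Real.exp (1 / l) * Real.exp ((Lm - l) * n)) * Real.exp ((-Lm + l / 2) * n) :=
            mul_le_mul_of_nonneg_right hcard (Real.exp_pos _).le
        _ = Real.exp (1 / l) * Real.exp (-(l / 2 * n)) := by
            rw [mul_assoc, ← Real.exp_add]
            congr 2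
            ring
    · have hcard : (((Cs n).filter
          (fun w : Wo => ¬ v * (w.length : ℝ) ≤ ψ w)).card : ℝ) ≤
          Real.exp (C / ε) * Real.exp ((Lm + ε) * n) := by
        refine le_trans ?_ (hCs ε hε hε1 n)
        exact_mod_cast Finset.card_le_card (Finset.filter_subset _ _)
      calc ∑ w ∈ (Cs n).filter (fun w : Wo => ¬ v * (w.length : ℝ) ≤ ψ w),
            Real.exp (-((Lm + lam * (v + d)) * (w.length : ℝ)) + lam * ψ w)
          ≤ ∑ _w ∈ (Cs n).filter (fun w : Wo => ¬ v * (w.length : ℝ) ≤ ψ w),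
            Real.exp ((-Lm - 2 * ε) * n) := by
            apply Finset.sum_le_sum
            intro w hw
            have hlen := hmem w (mem_filter.mp hw).1
            have h1 := (mem_filter.mp hw).2
            rw [hlen] at h1 ⊢
            apply Real.exp_le_exp.mpr
            have h2 : lam * ψ w ≤ lam * (v * n) :=
              mul_le_mul_of_nonneg_left (not_le.mp h1).le hlam.le
            rw [hεd]
            nlinarith
        _ = (((Cs n).filter (fun w : Wo => ¬ v * (w.length : ℝ) ≤ ψ w)).card : ℝ) *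
            Real.exp ((-Lm - 2 * ε) * n) := by
            rw [Finset.sum_const, nsmul_eq_mul]
        _ ≤ (Real.exp (C / ε) * Real.exp ((Lm + ε) * n)) * Real.exp ((-Lm - 2 * ε) * n) :=
            mul_le_mul_of_nonneg_right hcard (Real.exp_pos _).le
        _ = Real.exp (C / ε) * Real.exp (-(ε * n)) := by
            rw [mul_assoc, ← Real.exp_add]
            congr 2
            ring
  have hsum : ∑ n ∈ range (N + 1), ∑ w ∈ Cs n,
      Real.exp (-((Lm + lam * (v + d)) * (w.length : ℝ)) + lam * ψ w) ≤
      ∑ n ∈ range (N + 1), (Real.exp (1 / l) * Real.exp (-(l / 2 * n)) +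
        Real.exp (C / ε) * Real.exp (-(ε * n))) := Finset.sum_le_sum fun n _ => key n
  have hfin : ∑ n ∈ range (N + 1), (Real.exp (1 / l) * Real.exp (-(l / 2 * n)) +
        Real.exp (C / ε) * Real.exp (-(ε * n))) ≤
      Real.exp (1 / l) * (2 / (l / 2)) + Real.exp (C / ε) * (2 / ε) := by
    rw [Finset.sum_add_distrib, ← Finset.mul_sum, ← Finset.mul_sum]
    apply add_le_add
    · exact mul_le_mul_of_nonneg_left (geo_le _ (by linarith) (by linarith) N)
        (Real.exp_pos _).le
    · exact mul_le_mul_of_nonneg_left (geo_le _ hε hε1 N) (Real.exp_pos _).le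
  refine le_trans ?_ (hsum.trans hfin)
  apply le_of_eq
  refine Finset.sum_congr rfl fun n _ => Finset.sum_congr ?_ fun _ _ => rfl
  exact TS1x.all_eq _ _ _ fun _ => trivial

end Pool.Agent.QSB
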