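import Pool.Agent.SUBB.Main
import Pool.Agent.QSB.CSU
import Pool.Agent.QSB.ENT
import Pool.Agent.QSB.SML
import Pool.Agent.QSB.NCT
import Pool.Agent.QSB.TS1
import Pool.Agent.QSB.TRM
import Pool.Agent.QSB.RBK
import Pool.Agent.QSB.NCF
import Pool.Agent.QSB.BKU
import Pool.Agent.QSB.LRB
import Pool.Agent.QSB.LIM
import Pool.Agent.QSB.BLT
import Pool.Agent.QSB.REN2
import Pool.Agent.QSB.GST
import Pool.Agent.QSB.THR
import Pool.Agent.QSB.SBW
import Pool.Agent.QSB.POL

/-!
# Quantitative sub-ballisticity of self-avoiding polygons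

Assembly of the modules.  The qualitative theorem (polygons of span at least `v n` are exponentially
rare for every fixed `v > 0`) is due to Duminil-Copin and Hammond (2013).
-/

set_option autoImplicit false

namespace Pool.Agent.QSB

open Finset Filter Topology
open Pool.Agent.Lib27 Pool.Agent.SUBB

theorem m_SML : SML_Stmt := t_SML t_LNK m_MUL t_BDI t_BDC t_UNV

theorem m_NCT : NCT_Stmt := t_NCT m_MAP QSB.t_CSU t_COV QSB.t_ENT m_LRG m_SML

theorem m_BKU : BKU_Stmt := t_BKU (QSB.t_TS1 QSB.t_CSU) m_REN1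

theorem m_BLT : BLT_Stmt := QSB.t_BLT m_PSB (QSB.t_RBK m_MAP m_BSY) m_BKU QSB.t_LRB QSB.t_LIM QSB.t_TRM m_BSY

theorem m_GST : GST_Stmt := QSB.t_GST m_NCT (QSB.t_NCF QSB.t_CSU) m_BLT QSB.t_REN2

/-- quantitative sub-ballisticity of walks: rate `exp (-(1/v)^b)` -/
theorem m_SBW : SBW_Stmt := QSB.t_SBW (QSB.t_THR m_GST m_MAP)

/-- polygons with span at least `n / (log n)^a` are rare -/
theorem m_POL : POL_Stmt := QSB.t_POL m_SBW QSB.t_CSU m_MAP

end Pool.Agent.QSB
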