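import Pool.Agent.SUBB.Stmts2
import Pool.Agent.SUBB.Basic

/-!
# Project QSB (MP_f6626d_co): quantitative sub-ballisticity, definitions

`QT l P`: the words with the property `P` are rare at level `l`: at most
`exp (1/l) exp ((Lm - l) n)` of length `n`.
-/

set_option autoImplicit false

namespace Pool.Agent.QSB

open Finset Filter Topology
open Pool.Agent.Lib27 Pool.Agent.SUBB

open Classical in
/-- the property `P` is rare at level `l` -/
def QT (l : ℝ) (P : Wo → Prop) : Prop :=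
  ∀ n : ℕ, (((Cs n).filter P).card : ℝ) ≤ Real.exp (1 / l) * Real.exp ((Lm - l) * n)

/-- `QT` for any decidability instance -/
lemma QT_iff (l : ℝ) (P : Wo → Prop) [DecidablePred P] : QT l P ↔
    ∀ n : ℕ, (((Cs n).filter P).card : ℝ) ≤ Real.exp (1 / l) * Real.exp ((Lm - l) * n) := by
  unfold QT
  have h : ∀ n, (@Finset.filter Wo P (fun a => Classical.propDecidable (P a)) (Cs n)) =
      (Cs n).filter P := by
    intro n
    ext w
    simp
  constructor
  · intro hq n
    have := hq n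
    rwa [h n] at this
  · intro hq n
    rw [h n]
    exact hq n

/-- monotonicity in the property -/
lemma QT_mono {l : ℝ} {P Q : Wo → Prop} (h : ∀ w, P w → Q w) (hQ : QT l Q) : QT l P := by
  classical
  rw [QT_iff] at hQ ⊢
  intro n
  refine le_trans ?_ (hQ n)
  exact_mod_cast card_le_card (fun w hw => mem_filter.2
    ⟨(mem_filter.1 hw).1, h w (mem_filter.1 hw).2⟩)

/-- monotonicity in the level -/
lemma QT_anti {l l' : ℝ} {P : Wo → Prop} (hl' : 0 < l') (h : l' ≤ l) (hQ : QT l P) : QT l' P := by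
  classical
  rw [QT_iff] at hQ ⊢
  intro n
  refine (hQ n).trans ?_
  have h1 : 1 / l ≤ 1 / l' := one_div_le_one_div_of_le hl' h
  have h2 : (Lm - l) * n ≤ (Lm - l') * n := by
    apply mul_le_mul_of_nonneg_right _ (Nat.cast_nonneg n)
    linarith
  exact mul_le_mul (Real.exp_le_exp.2 h1) (Real.exp_le_exp.2 h2) (Real.exp_pos _).le
    (Real.exp_pos _).le

/-- two rare properties -/
lemma QT_or {l : ℝ} {P Q : Wo → Prop} (hl : 0 < l) (hl1 : l ≤ 1) (hP : QT l P) (hQ : QT l Q) :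
    QT (l / 2) (fun w => P w ∨ Q w) := by
  classical
  rw [QT_iff] at hP hQ ⊢
  intro n
  have hu : ((Cs n).filter (fun w => P w ∨ Q w)).card ≤
      ((Cs n).filter P).card + ((Cs n).filter Q).card := by
    rw [filter_or]
    exact card_union_le _ _
  have h1 : (((Cs n).filter (fun w => P w ∨ Q w)).card : ℝ) ≤
      (((Cs n).filter P).card : ℝ) + (((Cs n).filter Q).card : ℝ) := by exact_mod_cast hu
  have h2 : (2 : ℝ) ≤ Real.exp (1 / l) := by
    have h3 : (1 : ℝ) ≤ 1 / l := by rw [le_div_iff₀ hl]; linarith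
    have h4 := Real.add_one_le_exp (1 / l)
    linarith
  have h5 : Real.exp (1 / (l / 2)) = Real.exp (1 / l) * Real.exp (1 / l) := by
    rw [← Real.exp_add]
    congr 1
    field_simp
    ring
  have h6 : Real.exp ((Lm - l) * n) ≤ Real.exp ((Lm - l / 2) * n) := by
    apply Real.exp_le_exp.2
    apply mul_le_mul_of_nonneg_right _ (Nat.cast_nonneg n)
    linarith
  calc (((Cs n).filter (fun w => P w ∨ Q w)).card : ℝ)
      ≤ 2 * (Real.exp (1 / l) * Real.exp ((Lm - l) * n)) := by linarith [hP n, hQ n]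
    _ ≤ Real.exp (1 / l) * (Real.exp (1 / l) * Real.exp ((Lm - l) * n)) :=
        mul_le_mul_of_nonneg_right h2 (by positivity)
    _ = Real.exp (1 / (l / 2)) * Real.exp ((Lm - l) * n) := by rw [h5]; ring
    _ ≤ _ := mul_le_mul_of_nonneg_left h6 (Real.exp_pos _).le

/-- constants are absorbed by powers -/
lemma pow_absorb (C : ℝ) (k : ℕ) : ∃ K : ℕ, k ≤ K ∧ 1 ≤ K ∧
    ∀ x : ℝ, 0 < x → x ≤ 3 / 4 → C * x ^ K ≤ x ^ k := by
  obtain ⟨m, hm⟩ := exists_pow_lt_of_lt_one (show (0 : ℝ) < 1 / (|C| + 1) by positivity)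
    (show (3 / 4 : ℝ) < 1 by norm_num)
  refine ⟨k + m + 1, by omega, by omega, fun x hx hx1 => ?_⟩
  have h1 : x ^ (m + 1) ≤ 1 / (|C| + 1) := by
    calc x ^ (m + 1) = x ^ m * x := pow_succ _ _
      _ ≤ (3 / 4) ^ m * 1 := by
        apply mul_le_mul (pow_le_pow_left₀ hx.le hx1 m) (by linarith) hx.le (by positivity)
      _ ≤ _ := by rw [mul_one]; exact hm.le
  have h2 : C * x ^ (m + 1) ≤ 1 := by
    calc C * x ^ (m + 1) ≤ |C| * x ^ (m + 1) :=
          mul_le_mul_of_nonneg_right (le_abs_self C) (by positivity)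
      _ ≤ |C| * (1 / (|C| + 1)) := mul_le_mul_of_nonneg_left h1 (abs_nonneg _)
      _ ≤ 1 := by
        rw [mul_one_div, div_le_one (by positivity)]
        linarith
  calc C * x ^ (k + m + 1) = x ^ k * (C * x ^ (m + 1)) := by ring
    _ ≤ x ^ k * 1 := mul_le_mul_of_nonneg_left h2 (by positivity)
    _ = x ^ k := mul_one _

/-- the weaker level with a larger exponent -/
lemma QT_pow {l d : ℝ} {K K' : ℕ} {P : Wo → Prop} (hl : 0 < l) (hl1 : l ≤ 1) (hd : 0 < d)
    (hd1 : d ≤ 1) (h : K ≤ K') (hQ : QT ((l * d) ^ K) P) : QT ((l * d) ^ K') P := by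
  have h0 : 0 < l * d := mul_pos hl hd
  have h1 : l * d ≤ 1 := by nlinarith
  exact QT_anti (pow_pos h0 _) (pow_le_pow_of_le_one h0.le h1 h) hQ

/-- `1 - exp (-x)` for small `x` -/
lemma one_sub_exp_ge {x : ℝ} (hx : 0 ≤ x) (hx1 : x ≤ 1) : x / 2 ≤ 1 - Real.exp (-x) := by
  have h2 := Real.add_one_le_exp x
  have h3 : Real.exp (-x) * Real.exp x = 1 := by
    rw [← Real.exp_add, neg_add_cancel, Real.exp_zero]
  have h4 : 0 < Real.exp (-x) := Real.exp_pos _
  have h5 : Real.exp (-x) * (x + 1) ≤ 1 :=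
    (mul_le_mul_of_nonneg_left h2 h4.le).trans h3.le
  have h6 : 1 ≤ (1 - x / 2) * (x + 1) := by nlinarith
  have h7 : Real.exp (-x) * (x + 1) ≤ (1 - x / 2) * (x + 1) := h5.trans h6
  have h8 : Real.exp (-x) ≤ 1 - x / 2 := le_of_mul_le_mul_right h7 (by linarith)
  linarith

/-- geometric sums -/
lemma geo_le (c : ℝ) (hc : 0 < c) (hc1 : c ≤ 1) (N : ℕ) :
    ∑ n ∈ range (N + 1), Real.exp (-(c * (n : ℝ))) ≤ 2 / c := by
  have h0 : Real.exp (-c) < 1 := by
    have := Real.exp_lt_exp.2 (show -c < 0 by linarith)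
    rwa [Real.exp_zero] at this
  have h1 : ∀ n : ℕ, Real.exp (-(c * (n : ℝ))) = Real.exp (-c) ^ n := by
    intro n
    rw [← Real.exp_nat_mul]
    congr 1
    ring
  have h2 : ∑ n ∈ range (N + 1), Real.exp (-(c * (n : ℝ))) ≤ (1 - Real.exp (-c))⁻¹ := by
    rw [Finset.sum_congr rfl fun n _ => h1 n, ← tsum_geometric_of_lt_one (Real.exp_pos _).le h0]
    exact (summable_geometric_of_lt_one (Real.exp_pos _).le h0).sum_le_tsum _
      (fun n _ => pow_nonneg (Real.exp_pos _).le n)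
  refine h2.trans ?_
  have h3 := one_sub_exp_ge hc.le hc1
  rw [← one_div, div_le_div_iff₀ (by linarith) hc]
  linarith

end Pool.Agent.QSB
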