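import Pool.Agent.QSB.Defs

/-!
# Project QSB (MP_f6626d_co): quantitative sub-ballisticity, statements of the modules

Every module is the module of the same name of `Pool/Agent/SUBB` (qualitative) with the dependence on the
level `l` and the gap `d` made explicit: every step is `l ↦ (l d)^K` with an absolute `K`. The lemmas of
the files `Pool/Agent/SUBB/*.lean` may be used (import them), their proofs may be copied. Constants are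
absorbed with `pow_absorb` (`Defs.lean`), `x = l d ≤ 1/4`. Every doc string contains the proof.
-/

set_option autoImplicit false

namespace Pool.Agent.QSB

open Finset Filter Topology
open Pool.Agent.Lib27 Pool.Agent.SUBB

/-! ### counting -/

/-- CSU (about 60 lines). PROOF. Hammersley-Welsh: first lines of `W_log_lower` in
`Lib_helper27/Growth.lean` (`log #Cs N ≤ log (N+1) + 5 √(N+1) + log #Br (N+1)`, and the bound of the number of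
bridges by `exp (Lm (N+1))`) give `#Cs n ≤ exp (Lm n + C0 √(n+1))`; `C0 √(n+1) ≤ ε (n+1) + C0²/(4ε)`. -/
def CSU_Stmt : Prop := ∃ C : ℝ, 0 < C ∧ ∀ ε : ℝ, 0 < ε → ε ≤ 1 → ∀ n : ℕ,
  ((Cs n).card : ℝ) ≤ Real.exp (C / ε) * Real.exp ((Lm + ε) * n)

/-- ENT (about 60 lines). PROOF. As `SUBB.t_ENT` (`NB_le` with `x = 1/L`): the exponent is at most
`1 + (2 log L / L + 1 / L) n`; `log L ≤ 2 √L`, `√L ≥ 8/ε`: `2 log L / L ≤ 4 / √L ≤ ε / 2`, `1/L ≤ ε/2`. -/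
def ENT_Stmt : Prop := ∀ ε : ℝ, 0 < ε → ε ≤ 1 → ∀ L : ℕ, 64 / ε ^ 2 ≤ (L : ℝ) → ∀ n : ℕ,
  (NB (n + 1) (2 * (n / L)) : ℝ) ≤ Real.exp 1 * Real.exp (ε * n)

open Classical in
/-- SML (about 220 lines, the main new point: `1000 L²` instead of `64^L`). PROOF. As `SUBB.t_SML` with the
weight `g(w', A) = (1/L)^(#bd A n) (1 + 1/L)^(-#Z)`, `Z = Cut w' ∪ (Cut w' + 1)` (up to the boundary of
`range`, as there). For fixed `w'`: `∑_A g ≤ 1`, since `A ↦ bd A n` is injective (BDI) and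
`∑_(B ⊆ Z) (1/L)^#B = (1 + 1/L)^#Z`. For `w` without cut time, `S` a set of `σ` small backtracks,
`w' = flp (cov S) w`, `A = cov S`: `#bd A n ≤ 2σ` (BDC) and `#Z ≤ 2 #Cut w' ≤ 6 L σ` (MUL), hence
`g ≥ L^(-2σ) (1+1/L)^(-6Lσ) ≥ (1/(1000 L²))^σ`, because `(1+1/L)^L ≤ e ≤ 3`, `3^6 = 729`. -/
def SML_Stmt : Prop := ∀ (F : Frame) (n L : ℕ), 0 < L →
  ∑ w ∈ (Cs n).filter (fun w => Cut F w = ∅),
    (1 + 1 / (1000 * (L : ℝ) ^ 2)) ^ ((V F w).filter (fun q => sz F w q < L)).card ≤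
      ((Cs n).card : ℝ)

/-- NCT (about 250 lines). PROOF. As `SUBB.t_NCT`. (A) `v₁ len ≤ st`: level `l` (MAP, `Thin_st`).
(B) `(v₀ - 2d) len ≤ su + st` and large backtracks of total size `≥ d len`, `L = ⌈256 / l²⌉`: LRG with `a =
(v₀ - 2d) n`, `D = d n` and ENT with `ε = l/2`: at most `exp (1 + 1/l) exp ((Lm - l/2) n)`. (C) The rest: `su ≥ 6 d
len`, by COV at least `5 d n / L` small backtracks, so at most `exp (C/ε') exp ((Lm + ε' - κ) n)`, `κ = (5 d / L)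
log (1 + 1/(1000 L²)) ≥ 5 d / (2000 L³)`, `ε' = κ/2` (SML, CSU); `L ≤ 257/l²`. -/
def NCT_Stmt : Prop := ∃ K : ℕ, ∀ (F : Frame) (v₁ v₀ d l : ℝ), 0 ≤ v₁ → v₁ + 8 * d ≤ v₀ →
  v₀ ≤ 3 → 0 < d → d ≤ 1 / 2 → 0 < l → l ≤ 1 / 2 →
  QT l (fun w => v₁ * (w.length : ℝ) ≤ (su F w : ℝ)) →
  QT l (fun w => v₀ * (w.length : ℝ) ≤ ((su F w + st F w : ℤ) : ℝ)) →
  QT ((l * d) ^ K) (fun w => Cut F w = ∅ ∧
    (v₀ - 2 * d) * (w.length : ℝ) ≤ ((su F w + st F w : ℤ) : ℝ))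

/-! ### exponential moments -/

/-- TS1 (about 110 lines). PROOF. As `SUBB.t_TS1` with the single threshold `v`: words with `v len ≤ ψ`:
weight at most `exp (-(Lm - 2 lam) n)`, their number at most `exp (1/l) exp ((Lm - l) n)`, `2 lam ≤ l/2`; the
other words: weight at most `exp (-(Lm + lam d) n)`, CSU with `ε = lam d / 2`. -/
def TS1_Stmt : Prop := ∀ ψ : Wo → ℝ, (∀ w, |ψ w| ≤ 2 * (w.length : ℝ)) → ∀ v d l lam : ℝ,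
  0 ≤ v → v ≤ 3 → 0 < d → d ≤ 1 → 0 < l → l ≤ 1 / 2 →
  QT l (fun w => v * (w.length : ℝ) ≤ ψ w) → 0 < lam → lam ≤ l / 12 → ∃ B : ℝ, ∀ N : ℕ, Gs (fun _ => True)
    (fun w => Real.exp (-((Lm + lam * (v + d)) * (w.length : ℝ)) + lam * ψ w)) N ≤ B

/-- TRM (about 110 lines). PROOF. `SUBB.t_TRM` with `τ = (v₃ - v₂)/24` (there: `/13` and `v₃ ≤ 2`) and
`θ = 1 - exp (-τδ)`. Case `T = lam l ≤ τ ≤ 1/8`: `x = lam (u - v₃ l) + T²/2` has `|x| ≤ 4.1 T ≤ 1`,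
`exp x ≤ 1 + x + x²`, and `T²/2 + x² ≤ 18 T² ≤ (v₃ - v₂) T`. -/
def TRM_Stmt : Prop := ∀ v₂ v₃ δ θ : ℝ, 0 ≤ v₂ → v₂ < v₃ → v₃ ≤ 3 → 0 < δ →
  θ = 1 - Real.exp (-((v₃ - v₂) / 24 * δ)) →
  ∀ lam l u t : ℝ, 0 < lam → 0 < l → |u| ≤ l → |t| ≤ l →
    (lam * l ≤ (v₃ - v₂) / 24 ∨ u + |t| ≤ (v₃ - δ) * l) →
    Real.exp (lam * (u - v₃ * l)) * Real.cosh (lam * t) ≤
      (1 - θ) + θ * Real.exp (lam / θ * (u - v₂ * l))

/-- RBK (about 160 lines). PROOF. As `SUBB.t_RBK`: `#(n = m+1) ≤ 8 #(m)` if `v m ≤ (v + d) (m + 1) - 2`, which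
holds for `m ≥ 2/d`; for `n ≤ 2/d + 2` use `#Cs n ≤ 4^n`. So for instance the level `l d / 20`. -/
def RBK_Stmt : Prop := ∃ K : ℕ, ∀ (F : Frame) (v d l : ℝ), 0 ≤ v → v ≤ 3 → 0 < d → d ≤ 1 / 2 →
  0 < l → l ≤ 1 / 2 →
  QT l (fun w => Cut F w = ∅ ∧ v * (w.length : ℝ) ≤ ((su F w + st F w : ℤ) : ℝ)) →
  QT ((l * d) ^ K) (fun w => Blk F w ∧ (v + d) * (w.length : ℝ) ≤ (su F w : ℝ) + |(st F w : ℝ)|)

/-- NCF (about 130 lines). PROOF. As `SUBB.t_NCF`. Words with `v len ≤ su + st`: weight at most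
`exp (-(Lm - 2 lam) n)`, their number at most `exp (1/l) exp ((Lm - l) n)`, `2 lam ≤ l/2`; sum at most
`exp (1/l) 4/l` (`geo_le`), `1/l ≤ 1/(4 lam)`. The others: weight at most `exp (-(Lm + lam d) n)`, CSU with
`ε = lam d/2`: sum at most `exp (2C/(lam d)) 4/(lam d)`. Absorb `C` (`1/(lam d) ≥ 16`). -/
def NCF_Stmt : Prop := ∃ K : ℕ, ∀ (F : Frame) (v d l lam : ℝ), 0 ≤ v → v ≤ 3 → 0 < d →
  d ≤ 1 / 2 → 0 < l → l ≤ 1 / 2 →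
  QT l (fun w => Cut F w = ∅ ∧ v * (w.length : ℝ) ≤ ((su F w + st F w : ℤ) : ℝ)) →
  0 < lam → lam ≤ l / 4 → ∀ N : ℕ,
    Gs (fun w => Cut F w = ∅) (om F (Lm + lam * (v + d)) lam lam) N ≤
      Real.exp ((1 / (lam * d)) ^ K)

/-- BKU (about 60 lines). PROOF. As `SUBB.t_BKU`: TS1 with `ψ = su`, threshold `v₁`, REN1: the total weight
of the blocks with `s = Lm + lam (v₁ + d)` is at most `1`; blocks have length at least `1`. -/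
def BKU_Stmt : Prop := ∀ (F : Frame) (v₁ d l lam : ℝ), 0 ≤ v₁ → v₁ ≤ 3 → 0 < d → d ≤ 1 / 2 →
  0 < l → l ≤ 1 / 2 → QT l (fun w => v₁ * (w.length : ℝ) ≤ (su F w : ℝ)) →
  0 < lam → lam ≤ l / 12 → ∀ N : ℕ, Gs (Blk F) (om F (Lm + lam * (v₁ + 2 * d)) lam 0) N ≤ Real.exp (-(lam * d))

open Classical in
/-- LRB (about 90 lines). PROOF. As `SUBB.t_LRB` with `c₀ = l`, `C = exp (1/l)`; `1 - exp (-l/4) ≥ l/8`
(`one_sub_exp_ge`). -/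
def LRB_Stmt : Prop := ∀ (P : Wo → Prop) (τ l lam : ℝ), 0 < τ → 0 < l → l ≤ 1 / 2 → QT l P →
  0 < lam → lam ≤ l / 4 → ∀ N : ℕ,
    Gs (fun w => P w ∧ τ < lam * (w.length : ℝ))
      (fun w => Real.exp (-(Lm * (w.length : ℝ)) + 2 * lam * (w.length : ℝ))) N ≤
      Real.exp (1 / l) * (8 / l) * Real.exp (-(l * τ / 4 / lam))

/-- LIM (about 60 lines). PROOF. As `SUBB.t_LIM`: `x = lam η/θ ≤ 1`, `exp (-x) ≤ 1 - x/2`; `κ ≤ c/(2 lam)`, so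
`exp κ exp (-(c/lam)) ≤ exp (-(c/(2 lam))) ≤ 8 lam²/c² ≤ lam η/4` (`exp y ≥ y²/2`). -/
def LIM_Stmt : Prop := ∀ θ η c κ lam : ℝ, 0 < θ → 0 < η → 0 < c → 0 ≤ κ → 0 < lam →
  lam * η ≤ θ → 2 * (lam * κ) ≤ c → 32 * lam ≤ η * c ^ 2 →
  (1 - θ) + θ * Real.exp (-(lam / θ * η)) + Real.exp κ * Real.exp (-(c / lam)) ≤
    1 - lam * η / 4

/-- BLT (about 280 lines; from PSB, RBK, BKU, LRB, LIM, TRM, BSY). PROOF. As `SUBB.t_BLT` with `v₂ = v₁ + 2d`,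
`v₃ = v₀ - d`, `δ = d/2`, `τ = (v₃ - v₂)/24 ∈ [d/5, 1/8]`, `θ = 1 - exp (-τδ) ≥ τδ/2 ≥ d²/20`. RBK with `v = v₀ -
2d`, `d/2` gives the level `l' = (l d/2)^K₁` for `Blk ∧ (v₀ - 3d/2) len ≤ su + |st|` (replace `K₁` by `K₁+1`: `l' ≤
1/2`). For a block `w` with `lam len ≤ τ` or `su + |st| ≤ (v₃ - δ) len` use TRM, otherwise the weight is at
most `exp (-Lm len + 2 lam len)` (LRB with `l'`: `exp (1/l') (8/l') ≤ exp (9/l')`). BKU at `lam/θ ≤ l/12`, gap `d`.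
LIM with `η = d`, `κ = 9/l'`, `c = l'τ/4`. All conditions hold for `lam ≤ (l d)^K`. -/
def BLT_Stmt : Prop := ∃ K : ℕ, ∀ (F : Frame) (v₁ v₀ d l : ℝ), 0 ≤ v₁ → v₁ + 8 * d ≤ v₀ →
  v₀ ≤ 3 → 0 < d → d ≤ 1 / 2 → 0 < l → l ≤ 1 / 2 →
  QT l (fun w => v₁ * (w.length : ℝ) ≤ (su F w : ℝ)) →
  QT l (fun w => Cut F w = ∅ ∧
    (v₀ - 2 * d) * (w.length : ℝ) ≤ ((su F w + st F w : ℤ) : ℝ)) →
  ∀ lam : ℝ, 0 < lam → lam ≤ (l * d) ^ K → ∀ N : ℕ,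
    Gs (Blk F) (om F (Lm + lam * (v₀ - d)) lam lam) N ≤ 1 - lam * d / 4

/-- REN2 (about 140 lines). PROOF. The proof of `SUBB.t_REN2` gives this bound (copy its last part; the
lemmas `ren2_*` are public). -/
def REN2_Stmt : Prop := ∀ (F : Frame) (s a b ρ B : ℝ), ρ < 1 →
  (∀ N : ℕ, Gs (Blk F) (om F s a b) N ≤ ρ) →
  (∀ N : ℕ, Gs (fun w => Cut F w = ∅) (om F s a b) N ≤ B) →
  ∀ N : ℕ, Gs (fun _ => True) (om F s a b) N ≤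
    B + B * ((1 + (∑ w ∈ Cs 1, om F s a b w) * B) / (1 - ρ))

/-! ### thresholds -/

/-- GST (about 150 lines; from NCT, BLT, NCF, REN2). PROOF. NCT gives the level `l₁ = (l d)^(K₁+1) ≤ 1/2` for
the words without cut time. Let `lam = (l₁ d)^K₂ ≤ l₁/4`, `K₂` large, `s = Lm + lam (v₀ - d)`. BLT (levels `l₁`):
blocks at most `1 - lam d/4`. NCF (`v = v₀ - 2d`, gap `d`): `B = exp ((1/(lam d))^K₃)`. REN2: all words at most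
`B' = B + B (1 + 4e² B) 4/(lam d)` (`∑_(Cs 1) om ≤ 4 exp (2 lam)`, `s ≥ 0` by `Lm_nonneg`, `v₀ ≥ d`). Chebyshev (as
`SUBB.t_TS2`): the number of words with `(v₀ - d/2) len ≤ su + st` is at most `B' exp ((Lm - lam d/2) n)`. -/
def GST_Stmt : Prop := ∃ K : ℕ, ∀ (F : Frame) (v₁ v₀ d l : ℝ), 0 ≤ v₁ → v₁ + 8 * d ≤ v₀ →
  v₀ ≤ 3 → 0 < d → d ≤ 1 / 2 → 0 < l → l ≤ 1 / 2 →
  QT l (fun w => v₁ * (w.length : ℝ) ≤ (su F w : ℝ)) →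
  QT l (fun w => v₀ * (w.length : ℝ) ≤ ((su F w + st F w : ℤ) : ℝ)) →
  QT ((l * d) ^ K) (fun w => (v₀ - d / 2) * (w.length : ℝ) ≤ ((su F w + st F w : ℤ) : ℝ))

/-- THR (about 150 lines; from GST, MAP). PROOF. Claim: for every `j` there is `K_j` with
`QT ((l v)^K_j) ((1 + (15/16)^j) v len ≤ su + st)`. `j = 0`: `2 v len ≤ su + st` implies `v len ≤ su` or
`v len ≤ st` (`QT_or`, MAP as in `Thin_st`); `(l v)^K ≤ l/2` (`l v ≤ 3/4`). Step: GST with `v₁ = v`, `d = (15/16)^j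
v/8`, `v₀ = (1 + (15/16)^j) v ≤ 3`, level `(l v)^(K_j + 3) ≤ min (1/2, l)`; `v₀ - d/2 = (1 + (15/16)^(j+1)) v`, and
`((l v)^(K_j+3) d)^K ≥ (l v)^K_(j+1)` (`d ≥ (l v) (15/16)^j/8`, `pow_absorb`). Finally `(15/16)^36 ≤ 1/10`. -/
def THR_Stmt : Prop := ∃ K : ℕ, ∀ (F : Frame) (v l : ℝ), 0 < v → v ≤ 3 / 2 → 0 < l → l ≤ 1 / 2 →
  QT l (fun w => v * (w.length : ℝ) ≤ (su F w : ℝ)) →
  QT ((l * v) ^ K) (fun w => 11 / 10 * v * (w.length : ℝ) ≤ ((su F w + st F w : ℤ) : ℝ))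

/-- SBW (about 130 lines; from THR). PROOF. Let `v_m = (5/4) (2/3)^m`. Claim:
`QT ((1/2)^(A^(m+1))) (v_m len ≤ su axF)`. `m = 0`: only the empty word (`SBW_base`). Step (`SBW_step`): THR for
`axF` gives `(11/10) v_m len ≤ su axF + st axF = su dgF`, THR for `dgF` with `(11/10) v_m ≤ 3/2` gives
`(121/100) v_m len ≤ su dgF + st dgF = 2 su axF`, and `121/200 ≤ 2/3`. Levels: with `l = (1/2)^E`, `v_m ≥ (1/2)^m`: `(l
v_m)^K ≥ (1/2)^(K(E+m))`, twice, and `E = A^(m+1)`, `m ≤ A^(m+1)`, `A` large. At last THR for `axF` once more and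
`su axF + st axF = (ep 0 w).1 + (ep 0 w).2`, `(11/10)(5/4) ≤ 2` (enlarge `A`). -/
def SBW_Stmt : Prop := ∃ A : ℕ, 2 ≤ A ∧ ∀ m : ℕ, QT ((1 / 2) ^ (A ^ (m + 1)))
  (fun w => 2 * (2 / 3) ^ m * (w.length : ℝ) ≤ (((ep 0 w).1 + (ep 0 w).2 : ℤ) : ℝ))

/-- POL (about 250 lines; from SBW, CSU, MAP), the interface of the project. PROOF. `c ≤ 1/4` without loss of
generality. Let `v = (log n)^(-a)`, `m` minimal with `2 (2/3)^m ≤ v/2`, so `(3/2)^m ≤ 6 (log n)^a` and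
`A^(m+1) ≤ A (6 (log n)^a)^(log A/log (3/2)) ≤ C (log n)^(1/2)` for `a = log (3/2)/(2 log A)`; hence
`l = (1/2)^(A^(m+1)) ≥ n^(-c/4)` for large `n`, for every `c`. `POL.cover` and `POL.two_arcs` (file `SUBB/POL.lean`)
with `c := l`, `C := exp (1/l)`, `ε = l/4`, `C' = exp (4 C₀/l)`: at most `(2n+1)² 2 exp ((1 + 4C₀)/l) exp (2n Lm -
(3/4) l n)`; `#SAP n ≥ exp (2n Lm - C₂ √n)` (`W_rate_lower`, `Lc_eq`, as in `t_POL`); `l n ≥ n^(1-c/4)`. -/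
def POL_Stmt : Prop := ∃ a : ℝ, 0 < a ∧ ∀ c : ℝ, 0 < c → ∃ N : ℕ, ∀ n : ℕ, N ≤ n → ∀ h : ℕ,
  (n : ℝ) / Real.log n ^ a ≤ (h : ℝ) →
  (((AreaLaw.SAP n).filter (fun s => h ≤ AreaLaw.span n s)).card : ℝ) ≤
    Real.exp (-((n : ℝ) ^ (1 - c))) * ((AreaLaw.SAP n).card : ℝ)

end Pool.Agent.QSB
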